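import Pool.Agent.H15.OB.Fin
import Pool.Agent.H48.PI.HydU

/-!
# Finite horizon: a solution with bounds on `[0,L]` is once close to its Maxwellian
-/

set_option autoImplicit false

open MeasureTheory Set Filter Topology Pool.Agent.H25.Kin Pool.Agent.H37.LT
open Pool.Agent.H48.CV (EqM)
open Pool.Agent.H48.NE (mx)

namespace Pool.Agent.H15.OB

variable {d : ℕ}

/-- for the times `t ≤ L` of its life `[0,T)` the solution `g` has the decay constants `C`, the lower bound `m` of the mass density, and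
for `1 ≤ t ≤ L` the modulus of continuity `r` in `(x,v)` -/
def BdT (C : ℕ → ℝ) (m : ℝ) (r : ℝ → ℝ) (L T : ℝ) (g : ℝ → Vec d → Vec d → ℝ) : Prop :=
  ∀ t ∈ Ico 0 T, t ≤ L → (∀ x, (∀ (N : ℕ) (v : Vec d), (1 + ‖v‖) ^ N * g t x v ≤ C N) ∧
    m ≤ ∫ v, g t x v) ∧ (1 ≤ t → Md r (g t))

/-- a solution with bounds up to the time `L` is once close to its Maxwellian -/
theorem once_near {Q : (Vec d → ℝ) → Vec d → ℝ} {D : ℝ → (Vec d → ℝ) → ℝ} (HD : DisTh d Q D)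
    (C : ℕ → ℝ) {m : ℝ} (hm : 0 < m) (r : ℝ → ℝ) {a k : ℝ} (ha : 0 < a) (hk : 0 < k) (u : Vec d)
    {δ : ℝ} (hδ : 0 < δ) : ∃ L : ℝ, 1 ≤ L ∧ ∀ (T₁ : ℝ) (g : ℝ → Vec d → Vec d → ℝ),
    IsClassicalSol T₁ (fun t x => Q (g t x)) g → L ≤ T₁ → EqM a k u (g 0) → BdT C m r L T₁ g →
    ∃ t, 1 ≤ t ∧ t < L ∧ ∀ x v, |g t x v - mx a k u v| ≤ δ := by
  obtain ⟨n, hn, h⟩ := orbit_unif HD C hm r ha hk u hδ
  refine ⟨n + 1, by linarith, fun T₁ g hg hT hE hB => ?_⟩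
  have hr : IsClassicalSol (n + 1) (fun t x => Q (g t x)) g := Pool.Agent.H48.PI.sol_restrict hg hT
  have hb := fun t (ht : t ∈ Ico 0 (n + 1)) => hB t ⟨ht.1, ht.2.trans_le hT⟩ ht.2.le
  obtain ⟨t, ht, h1⟩ := h (n + 1) g hr (fun t ht N x v => ((hb t ht).1 x).1 N v) (fun t ht => by
    have ht0 : t ∈ Ico 0 (n + 1) := ⟨by linarith [ht.1], ht.2⟩
    have ht1 : t ∈ Ico 0 T₁ := ⟨ht0.1, ht.2.trans_le hT⟩
    exact ⟨hg.cont_slice ht1, hg.nonneg t ht1, hg.periodic t ht1,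
      fun N x v => ((hb t ht0).1 x).1 N v, fun x => ((hb t ht0).1 x).2, (hb t ht0).2 ht.1⟩) hE
    (by linarith)
  exact ⟨t, ht.1, by linarith [ht.2], h1⟩

end Pool.Agent.H15.OB
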