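import Pool.Agent.H15.OB.Defs
import Pool.Agent.H48.PI.DnC
import Pool.Agent.H15.OB.ErBS
import Pool.Agent.H71.VM.LTPrC

/-!
# Module DisBS: the Boltzmann operator, hard and soft potentials

`err_lip`, `slice_f` (with `Pool.Agent.H37.SB.slice_eps`), `Pc_lim`, `Dn_int`, `Dn_cont`, `drop_lim`, `eqm_t` (H37/LT, H87/PE).
-/

set_option autoImplicit false

open MeasureTheory Set Filter Topology Pool.Agent.H25.Kin Pool.Agent.H37.LT
open Pool.Agent.H15.AV (UNice TSol pair)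
open Pool.Agent.H48.CV (EqM)
open Pool.Agent.H48.NE (mx)
open Pool.Agent.H48.PI (Hs)

namespace Pool.Agent.H15.OB

variable {d : ℕ}

theorem disBS {s γ : ℝ} (hd : 2 ≤ d) (hs : 0 < s) (hs1 : s < 1) (h1 : 0 ≤ γ + 2 * s) (h2 : γ + 2 * s ≤ 2)
    {b : ℝ → ℝ} (hb : IsKernel d s b) : DisTh d (boltzQ γ b) (Pool.Agent.H48.PI.Dn γ b) := by
  obtain ⟨C, Ca, cb, HL⟩ := Pool.Agent.H82.CM.exists_hypL hd hs hs1
    h1 h2 hb
  refine ⟨?_, ?_, ?_, ?_, ?_, ?_, ?_⟩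
  · intro Cl A ε hε
    exact err_lipS HL.H (by linarith) Cl A hε
  · intro Cl m hm a k ha hk u ε hε
    exact Pool.Agent.H71.VM.slice_f HL h1 (Pool.Agent.H37.SB.slice_eps hd) Cl hm ha hk u hε
  · intro Cl' η hη
    obtain ⟨δ₀, h0, -, h⟩ := Pool.Agent.H87.PE.Pc_lim HL.H Cl' hη
    exact ⟨δ₀, h0, fun δ hδ g hg => (h δ hδ g hg).1⟩
  · intro T f hf δ hδ τ hτ
    exact Pool.Agent.H87.PE.Dn_int HL.H hf hδ.1 hδ.2 hτ
  · intro T f hf δ hδ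
    exact Pool.Agent.H87.PE.Dn_cont HL.H hf hδ.1 hδ.2
  · intro T f hf t₁ t₂ ht₁ h12 ht₂ η hη
    obtain ⟨δ₀, h0, h⟩ := Pool.Agent.H87.PE.drop_lim HL.H hf ht₁ h12.le ht₂ hη
    refine ⟨δ₀, h0, fun δ hδ => ?_⟩
    have h3 := (abs_le.1 (h δ hδ)).2
    have e : ∀ t, Hs (f t) = ∫ q, f t q.2 q.1 * Real.log (f t q.2 q.1) ∂(nu d) := fun t => rfl
    rw [e, e] at h3
    linarith
  · intro T f hf a k u h0 t ht
    exact eqm_t HL.H hf h0 ht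

end Pool.Agent.H15.OB
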