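import Pool.Agent.H15.OB.Fin
import Pool.Agent.H15.OB.DisBS
import Pool.Agent.H85.OP.OpW

/-!
# Finite horizon and openness for the Boltzmann equation

`Bds C m r L g`: the bounds of a solution on `[0,L]`. The horizon `L` depends only on `C`, `m`, `r` (and on the Maxwellian).
`fin_hor`: bounds on `[0,L]` imply the hydrodynamic bounds for the whole life and closeness to the Maxwellian for `t ≥ L`.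
`hor_open`, `hor_osc`: every solution with data near `g 0`, respectively near `h(x, N x, v)` with average `g 0`.
-/

set_option autoImplicit false

open MeasureTheory Set Filter Topology Pool.Agent.H25.Kin Pool.Agent.H37.LT Pool.Agent.H48.PR
open Pool.Agent.H48.CV (EqM)
open Pool.Agent.H48.NE (mx)
open Pool.Agent.H82.BK Pool.Agent.H82.CM
open Pool.Agent.H85.HW (Sch2 avX)

namespace Pool.Agent.H15.OB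

variable {d : ℕ}

/-- decay constants `C`, lower bound `m` of the mass density on `[0,L]`, modulus of continuity `r` in `(x,v)` on `[1,L]` -/
def Bds (C : ℕ → ℝ) (m : ℝ) (r : ℝ → ℝ) (L : ℝ) (g : ℝ → Vec d → Vec d → ℝ) : Prop :=
  (∀ t ∈ Icc 0 L, ∀ x, (∀ (N : ℕ) (v : Vec d), (1 + ‖v‖) ^ N * g t x v ≤ C N) ∧
    m ≤ ∫ v, g t x v) ∧ ∀ t ∈ Icc 1 L, Md r (g t)

/-- a solution with the bounds on `[0,n+1]` is at some time in `[1,n]` close to the Maxwellian -/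
theorem fin_near {Q : (Vec d → ℝ) → Vec d → ℝ} {D : ℝ → (Vec d → ℝ) → ℝ} (HD : DisTh d Q D)
    (C : ℕ → ℝ) {m : ℝ} (hm : 0 < m) (r : ℝ → ℝ) {a k : ℝ} (ha : 0 < a) (hk : 0 < k) (u : Vec d)
    {δ : ℝ} (hδ : 0 < δ) : ∃ n : ℝ, 1 ≤ n ∧ ∀ (T₁ : ℝ) (g : ℝ → Vec d → Vec d → ℝ),
    IsClassicalSol T₁ (fun t x => Q (g t x)) g → n + 1 ≤ T₁ → EqM a k u (g 0) →
    (∀ L < n + 1, Bds C m r L g) → ∃ t ∈ Icc 1 n, ∀ x v, |g t x v - mx a k u v| ≤ δ := by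
  obtain ⟨n, hn, h⟩ := orbit_unif HD C hm r ha hk u hδ
  refine ⟨n, hn, fun T₁ g hg hT hE hB => ?_⟩
  have hr : IsClassicalSol (n + 1) (fun t x => Q (g t x)) g := Pool.Agent.H48.PI.sol_restrict hg hT
  have hb : ∀ t ∈ Ico 0 (n + 1), (∀ x, (∀ (N : ℕ) (v : Vec d), (1 + ‖v‖) ^ N * g t x v ≤ C N) ∧
      m ≤ ∫ v, g t x v) ∧ (1 ≤ t → Md r (g t)) := fun t ht =>
    ⟨(hB t ht.2).1 t ⟨ht.1, le_rfl⟩, fun h1 => (hB t ht.2).2 t ⟨h1, le_rfl⟩⟩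
  refine h (n + 1) g hr (fun t ht N x v => ((hb t ht).1 x).1 N v) (fun t ht => ?_) hE (by linarith)
  have ht0 : t ∈ Ico 0 (n + 1) := ⟨by linarith [ht.1], ht.2⟩
  have ht1 : t ∈ Ico 0 T₁ := ⟨ht0.1, ht.2.trans_le hT⟩
  exact ⟨hg.cont_slice ht1, hg.nonneg t ht1, hg.periodic t ht1, fun N x v => ((hb t ht0).1 x).1 N v,
    fun x => ((hb t ht0).1 x).2, (hb t ht0).2 ht.1⟩

/-- **finite horizon and openness**: the horizon `L` depends on the class of `g` only -/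
theorem hor_open {s γ : ℝ} (hd : 2 ≤ d) (hs : 0 < s) (h0 : 0 ≤ γ) (hs2 : 2 * s < 1)
    (h2 : γ + 2 * s ≤ 2) {b : ℝ → ℝ} (hb : IsKernel d s b) {a k : ℝ} {u : Vec d} (ha : 0 < a)
    (hk : 0 < k) (C : ℕ → ℝ) {m : ℝ} (hm : 0 < m) (r : ℝ → ℝ) {η : ℝ} (hη : 0 < η) :
    ∃ L : (ℕ → ℝ) → ℝ, (∀ B, 1 ≤ L B) ∧ (0 < γ → ∀ B B' : ℕ → ℝ, L B = L B') ∧
      ∀ (B : ℕ → ℝ) (T₁ : ℝ) (g : ℝ → Vec d → Vec d → ℝ), IsBoltzmannSol γ b T₁ g →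
      EqM a k u (g 0) → (∃ α : ℝ, 2 * s < α ∧ α ≤ 1 ∧ HolData α (g 0)) → L B < T₁ →
      Bds C m r (L B) g →
      (∀ t ∈ Ico (L B) T₁, ∀ x v, |g t x v - mx a k u v| ≤ η) ∧
      ∃ ε > 0, ∃ m₀ > 0, ∃ (M₀ : ℝ) (U : ℕ → ℝ),
      ∀ (T : ℝ) (f : ℝ → Vec d → Vec d → ℝ), IsBoltzmannSol γ b T f →
        (∀ (N : ℕ) (x v : Vec d), (1 + ‖v‖) ^ N * f 0 x v ≤ B N) → (∀ x v, |f 0 x v - g 0 x v| ≤ ε) →
        ∀ t ∈ Ico 0 T, ∀ x, HydroBounds m₀ M₀ M₀ M₀ (f t x) ∧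
          (∀ (N : ℕ) (v : Vec d), (1 + ‖v‖) ^ N * f t x v ≤ U N) ∧
          (t < T₁ → ∀ v, |f t x v - g t x v| ≤ η) ∧ (L B ≤ t → ∀ v, |f t x v - mx a k u v| ≤ η) := by
  obtain ⟨δ, hδ, hδc, h⟩ := Pool.Agent.H85.OP.open_all hd hs h0 hs2 h2 hb ha hk (u₀ := u) C hm hη
  have hN := fun e : {e : ℝ // 0 < e} => fin_near (disBS hd hs (by linarith) (by linarith) h2 hb) C
    hm r ha hk u e.2
  choose n hn1 hn using hN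
  refine ⟨fun B => n ⟨δ B, hδ B⟩ + 1, fun B => by linarith [hn1 ⟨δ B, hδ B⟩], fun hγ B B' => ?_, ?_⟩
  · have e1 : (⟨δ B, hδ B⟩ : {e : ℝ // 0 < e}) = ⟨δ B', hδ B'⟩ := Subtype.ext (hδc hγ B B')
    show n ⟨δ B, hδ B⟩ + 1 = n ⟨δ B', hδ B'⟩ + 1
    rw [e1]
  intro B T₁ g hg hE hol hL hB
  obtain ⟨L, hLd⟩ : ∃ L : ℝ, L = n ⟨δ B, hδ B⟩ + 1 := ⟨_, rfl⟩
  simp only [← hLd] at hL hB ⊢
  have hL1 : 1 ≤ L := by rw [hLd]; linarith [hn1 ⟨δ B, hδ B⟩]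
  have hpos : ∀ x, 0 < ∫ v, g 0 x v := fun x => hm.trans_le (hB.1 0 ⟨le_rfl, by linarith⟩ x).2
  obtain ⟨t₀, ht₀, hcl⟩ := hn ⟨δ B, hδ B⟩ T₁ g hg (by rw [← hLd]; exact hL.le) hE fun L' hL' => by
    rw [← hLd] at hL'
    exact ⟨fun t ht => hB.1 t ⟨ht.1, ht.2.trans hL'.le⟩, fun t ht => hB.2 t ⟨ht.1, ht.2.trans hL'.le⟩⟩
  have ht₀L : t₀ ≤ L := by rw [hLd]; linarith [ht₀.2]
  have hC : Pool.Agent.H85.OP.Close (mx a k u) C m (δ B) t₀ g :=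
    ⟨ht₀.1, fun t ht => hB.1 t ⟨ht.1, ht.2.trans ht₀L⟩, hcl⟩
  obtain ⟨hg3, ε, hε, m₀, hm₀, M₀, U, h3⟩ := h B T₁ g hg hpos hol t₀ (by linarith)
  refine ⟨fun t ht => hg3 hC t ⟨ht₀L.trans ht.1, ht.2⟩, ε, hε, m₀, hm₀, M₀, U,
    fun T f hf hfB hfε t ht x => ?_⟩
  obtain ⟨h4, h5, h6, h7⟩ := h3 T f (Or.inr hC) hf hfB hfε t ht x
  exact ⟨h4, h5, h6, fun h8 => h7 (ht₀L.trans h8)⟩

/-- the same near rapidly oscillating data `h(x, N x, v)` with the average `g 0` -/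
theorem hor_osc {h : Vec d → Vec d → Vec d → ℝ} {s γ : ℝ} (hd : 2 ≤ d) (hs : 0 < s) (h0 : 0 ≤ γ)
    (hs2 : 2 * s < 1) (h2 : γ + 2 * s ≤ 2) {b : ℝ → ℝ} (hb : IsKernel d s b) (hh : Sch2 h)
    (hn : ∀ x y v, 0 ≤ h x y v) (hv : ∀ x y, 0 < ∫ v, h x y v) {a k : ℝ} {u : Vec d} (ha : 0 < a)
    (hk : 0 < k) (C : ℕ → ℝ) {m : ℝ} (hm : 0 < m) (r : ℝ → ℝ) {η : ℝ} (hη : 0 < η) :
    ∃ L : (ℕ → ℝ) → ℝ, (∀ B, 1 ≤ L B) ∧ (0 < γ → ∀ B B' : ℕ → ℝ, L B = L B') ∧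
      ∀ (B : ℕ → ℝ) (T₁ : ℝ) (g : ℝ → Vec d → Vec d → ℝ), IsBoltzmannSol γ b T₁ g →
      EqM a k u (g 0) → g 0 = avX h → L B < T₁ → Bds C m r (L B) g → ∀ τ > 0,
      ∃ ε > 0, ∃ n₀ : ℕ, ∃ m₁ > 0, ∃ (M₀ : ℝ) (U : ℕ → ℝ), ∀ N ≥ n₀, ∃ m₀ > 0,
      ∀ (T : ℝ) (f : ℝ → Vec d → Vec d → ℝ), IsBoltzmannSol γ b T f →
        (∀ (M : ℕ) (x v : Vec d), (1 + ‖v‖) ^ M * f 0 x v ≤ B M) →
        (∀ x v, |f 0 x v - h x ((N : ℝ) • x) v| ≤ ε) →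
        ∀ t ∈ Ico 0 T, ∀ x, HydroBounds m₀ M₀ M₀ M₀ (f t x) ∧
          (∀ (M : ℕ) (v : Vec d), (1 + ‖v‖) ^ M * f t x v ≤ U M) ∧
          (τ ≤ t → m₁ ≤ ∫ v, f t x v) ∧
          (τ ≤ t → t < T₁ → ∀ v, |f t x v - g t x v| ≤ η) ∧
          (L B ≤ t → ∀ v, |f t x v - mx a k u v| ≤ η) := by
  obtain ⟨δ, hδ, hδc, hop⟩ := Pool.Agent.H85.OP.open_osc hd hs h0 hs2 h2 hb hh hn hv ha hk (u₀ := u)
    C hm hη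
  have hN := fun e : {e : ℝ // 0 < e} => fin_near (disBS hd hs (by linarith) (by linarith) h2 hb) C
    hm r ha hk u e.2
  choose n hn1 hn using hN
  refine ⟨fun B => n ⟨δ B, hδ B⟩ + 1, fun B => by linarith [hn1 ⟨δ B, hδ B⟩], fun hγ B B' => ?_, ?_⟩
  · have e1 : (⟨δ B, hδ B⟩ : {e : ℝ // 0 < e}) = ⟨δ B', hδ B'⟩ := Subtype.ext (hδc hγ B B')
    show n ⟨δ B, hδ B⟩ + 1 = n ⟨δ B', hδ B'⟩ + 1
    rw [e1]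
  intro B T₁ g hg hE hg0 hL hB τ hτ
  obtain ⟨L, hLd⟩ : ∃ L : ℝ, L = n ⟨δ B, hδ B⟩ + 1 := ⟨_, rfl⟩
  simp only [← hLd] at hL hB ⊢
  have hL1 : 1 ≤ L := by rw [hLd]; linarith [hn1 ⟨δ B, hδ B⟩]
  obtain ⟨t₀, ht₀, hcl⟩ := hn ⟨δ B, hδ B⟩ T₁ g hg (by rw [← hLd]; exact hL.le) hE fun L' hL' => by
    rw [← hLd] at hL'
    exact ⟨fun t ht => hB.1 t ⟨ht.1, ht.2.trans hL'.le⟩, fun t ht => hB.2 t ⟨ht.1, ht.2.trans hL'.le⟩⟩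
  have ht₀L : t₀ ≤ L := by rw [hLd]; linarith [ht₀.2]
  have hC : Pool.Agent.H85.OP.Close (mx a k u) C m (δ B) t₀ g :=
    ⟨ht₀.1, fun t ht => hB.1 t ⟨ht.1, ht.2.trans ht₀L⟩, hcl⟩
  obtain ⟨ε, hε, n₀, m₁, hm₁, M₀, U, h3⟩ := hop B T₁ g hg hg0 t₀ (by linarith) τ hτ
  refine ⟨ε, hε, n₀, m₁, hm₁, M₀, U, fun N hN => ?_⟩
  obtain ⟨m₀, hm₀, h4⟩ := h3 N hN
  refine ⟨m₀, hm₀, fun T f hf hfB hfε t ht x => ?_⟩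
  obtain ⟨h5, h6, h7, h8, h9⟩ := h4 T f (Or.inr hC) hf hfB hfε t ht x
  exact ⟨h5, h6, h7, h8, fun h10 => h9 (ht₀L.trans h10)⟩

end Pool.Agent.H15.OB
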