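import Pool.Agent.H15.OB.App0
import Pool.Agent.H15.OL.OpnW

/-!
# Finite horizon and openness for the Landau equation

`self_L`: bounds up to the time `L` imply the hydrodynamic bounds for the whole life. `near_L'`, `osc_L'`: openness around every solution
with the bounds up to `L`, without and with fast oscillations. The horizon `L` depends on the class only.
-/

set_option autoImplicit false

open MeasureTheory Set Filter Topology Pool.Agent.H25.Kin Pool.Agent.H37.LT Pool.Agent.H48.PR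
open Pool.Agent.H48.NE Pool.Agent.H48.LN
open Pool.Agent.H48.CV (EqM)
open Pool.Agent.H48.LV (LSol lsol_one lsol_shift)
open Pool.Agent.H85.HW (Sch2 avX)
open Pool.Agent.H15.OL (sup_to_wp open_L open_LW)

namespace Pool.Agent.H15.OB

variable {d : ℕ} {γ : ℝ}

private lemma appL_le {q : ℕ} {v : Vec d} {a c : ℝ} (ha : 0 ≤ a)
    (h : (1 + ‖v‖) ^ (2 * q) * a ≤ c) : a ≤ ((d : ℝ) + 1) ^ q * |c| * Wp q v := by
  have hn := norm_nonneg v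
  have h2 : 1 + nsq v ≤ ((d : ℝ) + 1) * (1 + ‖v‖) ^ 2 := by
    have h3 := sq_le v
    have h4 : (0 : ℝ) ≤ d := Nat.cast_nonneg _
    nlinarith [mul_nonneg h4 hn]
  have h5 : (1 + nsq v) ^ q ≤ ((d : ℝ) + 1) ^ q * (1 + ‖v‖) ^ (2 * q) := by
    rw [pow_mul, ← mul_pow]
    exact pow_le_pow_left₀ (by have := sq_nonneg' v; linarith) h2 q
  have h6 : 0 < (1 + nsq v) ^ q := by
    have := sq_nonneg' v
    positivity
  rw [Wp, ← div_eq_mul_inv, le_div_iff₀ h6]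
  calc a * (1 + nsq v) ^ q ≤ a * (((d : ℝ) + 1) ^ q * (1 + ‖v‖) ^ (2 * q)) :=
        mul_le_mul_of_nonneg_left h5 ha
    _ = ((d : ℝ) + 1) ^ q * ((1 + ‖v‖) ^ (2 * q) * a) := by ring
    _ ≤ ((d : ℝ) + 1) ^ q * |c| := by
        gcongr
        exact h.trans (le_abs_self c)

/-- closeness in the sup norm of a function with decay `C` to the Maxwellian gives closeness with the weight `Wp p` -/
theorem to_wp {a k : ℝ} (ha : 0 < a) (hk : 0 < k) (u : Vec d) (p : ℕ) (C : ℕ → ℝ) {e : ℝ} (he : 0 < e) :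
    ∃ δ > 0, ∀ F : Vec d → ℝ, (∀ v, 0 ≤ F v) → (∀ (N : ℕ) (v : Vec d), (1 + ‖v‖) ^ N * F v ≤ C N) →
      (∀ v, |F v - mx a k u v| ≤ δ) → ∀ v, |F v - mx a k u v| ≤ e * Wp p v := by
  obtain ⟨Cm, hCm⟩ := Pool.Agent.H48.NE.mx_FB (d := d) ha hk u
  obtain ⟨A, hA⟩ : ∃ A : ℝ, A = ((d : ℝ) + 1) ^ (p + 1) * |C (2 * (p + 1))| +
      ((d : ℝ) + 1) ^ (p + 1) * |Cm (2 * (p + 1))| := ⟨_, rfl⟩
  obtain ⟨δ, hδ, h⟩ := sup_to_wp (d := d) p A he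
  refine ⟨δ, hδ, fun F h0 hF hc => h (fun v => F v - mx a k u v) hc fun v => ?_⟩
  have j1 := appL_le (h0 v) (hF (2 * (p + 1)) v)
  have j2 := appL_le (hCm.nonneg v) (hCm.le (2 * (p + 1)) v)
  have j3 := h0 v
  have j4 := hCm.nonneg v
  have j5 : |F v - mx a k u v| ≤ F v + mx a k u v := by
    rw [abs_le]
    constructor <;> linarith
  refine j5.trans ?_
  rw [hA, add_mul]
  linarith

/-- **finite horizon**: bounds up to the time `L` imply the hydrodynamic bounds for the whole life -/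
theorem self_L {D : ℝ → (Vec d → ℝ) → ℝ} (HD : DisTh d (landauQ γ) D) (hd : 2 ≤ d) (h1 : -2 < γ)
    (h2 : γ ≤ 0) {a k : ℝ} (ha : 0 < a) (hk : 0 < k) (u : Vec d) (C : ℕ → ℝ) {m : ℝ} (hm : 0 < m)
    (r : ℝ → ℝ) {η : ℝ} (hη : 0 < η) : ∃ L : ℝ, 1 ≤ L ∧ ∃ m₀ > 0, ∃ (M₀ : ℝ) (U : ℕ → ℝ),
      ∀ (T : ℝ) (f : ℝ → Vec d → Vec d → ℝ), IsLandauSol γ T f → EqM a k u (f 0) →
      BdT C m r L T f → ∀ t ∈ Ico 0 T, ∀ x, HydroBounds m₀ M₀ M₀ M₀ (f t x) ∧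
        (∀ (N : ℕ) (v : Vec d), (1 + ‖v‖) ^ N * f t x v ≤ U N) ∧
        (L ≤ t → ∀ v, |f t x v - mx a k u v| ≤ η) := by
  obtain ⟨e₁, he₁, hL⟩ := near_L (Pool.Agent.H15.KM.kmod_all d) hd h1 h2 (p := d + 3) le_rfl ha hk u
  obtain ⟨e₂, he₂, hE⟩ := near_eqL (Pool.Agent.H15.KM.kmod_all d) hd h1 h2 (p := d + 3) le_rfl ha hk u hη
  obtain ⟨U₂, m₂, hm₂, hL2⟩ := hL C
  obtain ⟨δ, hδ, hwp⟩ := to_wp ha hk u (d + 3) C (lt_min he₁ he₂)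
  obtain ⟨L, hL1, hon⟩ := once_near HD C hm r ha hk u hδ
  obtain ⟨M₀, hM₀⟩ := Pool.Agent.H48.PI.hydro_of_U d fun N => max (C N) (U₂ N)
  refine ⟨L, hL1, min m m₂, lt_min hm hm₂, M₀, fun N => max (C N) (U₂ N), fun T f hf hE0 hB => ?_⟩
  have hf' : IsClassicalSol T (fun t x => landauQ γ (f t x)) f := hf
  have key : ∀ t ∈ Ico 0 T, ∀ x, (∀ (N : ℕ) (v : Vec d), (1 + ‖v‖) ^ N * f t x v ≤
      max (C N) (U₂ N)) ∧ min m m₂ ≤ ∫ v, f t x v ∧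
      (L ≤ t → ∀ v, |f t x v - mx a k u v| ≤ η) := by
    intro t ht x
    have hlate : L ≤ t → (∀ (N : ℕ) (v : Vec d), (1 + ‖v‖) ^ N * f t x v ≤ U₂ N) ∧
        m₂ ≤ ∫ v, f t x v ∧ ∀ v, |f t x v - mx a k u v| ≤ η := by
      intro hLt
      have hLT : L ≤ T := hLt.trans ht.2.le
      obtain ⟨t₀, h3, h4, h5⟩ := hon T f hf' hLT hE0 hB
      have ht₀ : t₀ ∈ Ico 0 T := ⟨by linarith, h4.trans_le hLT⟩
      have hb₀ := (hB t₀ ht₀ h4.le).1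
      have hsh : IsLandauSol γ (T - t₀) (fun τ => f (t₀ + τ)) :=
        lsol_one.1 (lsol_shift (lsol_one.2 hf) ht₀.1)
      have hnear : ∀ y w, |f (t₀ + 0) y w - mx a k u w| ≤ min e₁ e₂ * Wp (d + 3) w := fun y w => by
        rw [add_zero]
        exact hwp (f t₀ y) (hf'.nonneg t₀ ht₀ y) (fun N v => (hb₀ y).1 N v) (h5 y) w
      have htt' : t - t₀ ∈ Ico 0 (T - t₀) := ⟨by linarith, by linarith [ht.2]⟩
      have e1 : t₀ + (t - t₀) = t := by ring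
      have k1 := hL2 (T - t₀) (fun τ => f (t₀ + τ)) hsh (fun N y w => by
        show (1 + ‖w‖) ^ N * f (t₀ + 0) y w ≤ C N
        rw [add_zero]
        exact (hb₀ y).1 N w) (fun y w => (hnear y w).trans
          (mul_le_mul_of_nonneg_right (min_le_left _ _) (Wp_pos _ w).le)) (t - t₀) htt' x
      have k2 := hE (T - t₀) (fun τ => f (t₀ + τ)) hsh (fun y w => (hnear y w).trans
          (mul_le_mul_of_nonneg_right (min_le_right _ _) (Wp_pos _ w).le)) (t - t₀) htt' x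
      simp only [e1] at k1 k2
      exact ⟨k1.1, k1.2, fun v => (k2 v).trans (mul_le_of_le_one_right hη.le (Wp_le_one _ v))⟩
    rcases le_total t L with h | h
    · have hb := (hB t ht h).1 x
      exact ⟨fun N v => (hb.1 N v).trans (le_max_left _ _), (min_le_left _ _).trans hb.2,
        fun h' => (hlate h').2.2⟩
    · obtain ⟨k1, k2, k3⟩ := hlate h
      exact ⟨fun N v => (k1 N v).trans (le_max_right _ _), (min_le_right _ _).trans k2, fun _ => k3⟩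
  intro t ht x
  obtain ⟨g1, g2, g3⟩ := hM₀ T _ f hf' (fun N τ hτ y w => (key τ hτ y).1 N w) t ht x
  exact ⟨⟨(key t ht x).2.1, g1, g2, g3⟩, (key t ht x).1, (key t ht x).2.2⟩

/-- **openness**: every solution with data near `g 0` -/
theorem near_horL {D : ℝ → (Vec d → ℝ) → ℝ} (HD : DisTh d (landauQ γ) D) (hd : 2 ≤ d) (h1 : -2 < γ)
    (h2 : γ ≤ 0) {a k : ℝ} (ha : 0 < a) (hk : 0 < k) (u : Vec d) (C : ℕ → ℝ) {m : ℝ} (hm : 0 < m)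
    (r : ℝ → ℝ) {η : ℝ} (hη : 0 < η) : ∃ L : ℝ, 1 ≤ L ∧
      ∀ (T₁ : ℝ) (g : ℝ → Vec d → Vec d → ℝ), IsLandauSol γ T₁ g → EqM a k u (g 0) → L ≤ T₁ →
      BdT C m r L T₁ g →
      (∀ T₀ < T₁, ∀ N : ℕ, ∃ C', ∀ t ∈ Ioc 0 T₀, ∀ (x v : Vec d) (i j : Fin d),
        (1 + ‖v‖) ^ N * |pd i (pd j (g t x)) v| ≤ C') → ∀ B : ℕ → ℝ,
      ∃ ε > 0, ∃ m₀ > 0, ∃ (M₀ : ℝ) (U : ℕ → ℝ), ∀ (T : ℝ) (f : ℝ → Vec d → Vec d → ℝ),
        IsLandauSol γ T f → (∀ (N : ℕ) (x v : Vec d), (1 + ‖v‖) ^ N * f 0 x v ≤ B N) →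
        (∀ x v, |f 0 x v - g 0 x v| ≤ ε) →
        ∀ t ∈ Ico 0 T, ∀ x, HydroBounds m₀ M₀ M₀ M₀ (f t x) ∧
          (∀ (N : ℕ) (v : Vec d), (1 + ‖v‖) ^ N * f t x v ≤ U N) ∧
          (t < T₁ → ∀ v, |f t x v - g t x v| ≤ η) ∧ (L ≤ t → ∀ v, |f t x v - mx a k u v| ≤ η) := by
  obtain ⟨e, he, hop⟩ := open_L hd h1 h2 ha hk u (half_pos hη)
  obtain ⟨e₂, he₂, hE⟩ := near_eqL (Pool.Agent.H15.KM.kmod_all d) hd h1 h2 (p := d + 3) le_rfl ha hk u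
    (half_pos hη)
  obtain ⟨δ, hδ, hwp⟩ := to_wp ha hk u (d + 3) C (lt_min he he₂)
  obtain ⟨L, hL1, hon⟩ := once_near HD C hm r ha hk u hδ
  refine ⟨L, hL1, fun T₁ g hg hE0 hLT hB hg2 B => ?_⟩
  have hg' : IsClassicalSol T₁ (fun t x => landauQ γ (g t x)) g := hg
  obtain ⟨t₀, h3, h4, h5⟩ := hon T₁ g hg' hLT hE0 hB
  have ht₀ : t₀ ∈ Ico 0 T₁ := ⟨by linarith, h4.trans_le hLT⟩
  have hb₀ := (hB t₀ ht₀ h4.le).1
  have hpos : ∀ x, 0 < ∫ v, g 0 x v := fun x =>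
    hm.trans_le ((hB 0 ⟨le_rfl, by linarith⟩ (by linarith)).1 x).2
  have hnear : ∀ y w, |g t₀ y w - mx a k u w| ≤ min e e₂ * Wp (d + 3) w := fun y w =>
    hwp (g t₀ y) (hg'.nonneg t₀ ht₀ y) (fun N v => (hb₀ y).1 N v) (h5 y) w
  obtain ⟨ε, hε, m₀, hm₀, M₀, U, h6⟩ := hop T₁ g hg hg2 hpos t₀ ht₀ (fun x v => (hnear x v).trans
    (mul_le_mul_of_nonneg_right (min_le_left _ _) (Wp_pos _ v).le)) B
  have hgW : ∀ t ∈ Ico t₀ T₁, ∀ x v, |g t x v - mx a k u v| ≤ η / 2 := by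
    intro t ht x v
    have hsh : IsLandauSol γ (T₁ - t₀) (fun τ => g (t₀ + τ)) :=
      lsol_one.1 (lsol_shift (lsol_one.2 hg) ht₀.1)
    have k2 := hE (T₁ - t₀) (fun τ => g (t₀ + τ)) hsh (fun y w => by
      show |g (t₀ + 0) y w - _| ≤ _
      rw [add_zero]
      exact (hnear y w).trans (mul_le_mul_of_nonneg_right (min_le_right _ _) (Wp_pos _ w).le))
      (t - t₀) ⟨by linarith [ht.1], by linarith [ht.2]⟩ x
    have e1 : t₀ + (t - t₀) = t := by ring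
    simp only [e1] at k2
    exact (k2 v).trans (mul_le_of_le_one_right (by positivity) (Wp_le_one _ v))
  refine ⟨ε, hε, m₀, hm₀, M₀, U, fun T f hf hfB hfε t ht x => ?_⟩
  obtain ⟨k1, k2, k3, k4⟩ := h6 T f hf hfB hfε t ht x
  refine ⟨k1, k2, fun h7 v => ?_, fun h7 v => (k4 (h4.le.trans h7) v).trans (by linarith)⟩
  rcases le_total t t₀ with h8 | h8
  · exact (k3 h8 v).trans (by linarith)
  · have j1 := k4 h8 v
    have j2 := hgW t ⟨h8, h7⟩ x v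
    rw [abs_le] at j1 j2 ⊢
    constructor <;> linarith [j1.1, j1.2, j2.1, j2.2]

/-- **openness with fast oscillations**: every solution with data near `h(x, n x, v)` where `h` has the average `g 0` -/
theorem osc_horL {D : ℝ → (Vec d → ℝ) → ℝ} (HD : DisTh d (landauQ γ) D) (hd : 2 ≤ d) (h1 : -2 < γ)
    (h2 : γ ≤ 0) {a k : ℝ} (ha : 0 < a) (hk : 0 < k) (u : Vec d) (C : ℕ → ℝ) {m : ℝ} (hm : 0 < m)
    (r : ℝ → ℝ) {η : ℝ} (hη : 0 < η) : ∃ L : ℝ, 1 ≤ L ∧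
      ∀ (T₁ : ℝ) (g : ℝ → Vec d → Vec d → ℝ), IsLandauSol γ T₁ g → EqM a k u (g 0) → L ≤ T₁ →
      BdT C m r L T₁ g →
      (∀ T₀ < T₁, ∀ N : ℕ, ∃ C', ∀ t ∈ Ioc 0 T₀, ∀ (x v : Vec d) (i j : Fin d),
        (1 + ‖v‖) ^ N * |pd i (pd j (g t x)) v| ≤ C') →
      ∀ h : Vec d → Vec d → Vec d → ℝ, Sch2 h → (∀ x y v, 0 ≤ h x y v) →
      (∀ x y, 0 < ∫ v, h x y v) → g 0 = avX h → ∀ B : ℕ → ℝ, ∀ τ > 0,
      ∃ ε > 0, ∃ n₀ : ℕ, ∃ m₁ > 0, ∃ (M₀ : ℝ) (U : ℕ → ℝ), ∀ n ≥ n₀, ∃ m₀ > 0,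
      ∀ (T : ℝ) (f : ℝ → Vec d → Vec d → ℝ),
        IsLandauSol γ T f → (∀ (N : ℕ) (x v : Vec d), (1 + ‖v‖) ^ N * f 0 x v ≤ B N) →
        (∀ x v, |f 0 x v - h x ((n : ℝ) • x) v| ≤ ε) →
        ∀ t ∈ Ico 0 T, ∀ x, HydroBounds m₀ M₀ M₀ M₀ (f t x) ∧
          (∀ (N : ℕ) (v : Vec d), (1 + ‖v‖) ^ N * f t x v ≤ U N) ∧
          (τ ≤ t → m₁ ≤ ∫ v, f t x v) ∧
          (τ ≤ t → t < T₁ → ∀ v, |f t x v - g t x v| ≤ η) ∧
          (τ ≤ t → L ≤ t → ∀ v, |f t x v - mx a k u v| ≤ η) := by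
  obtain ⟨e, he, hop⟩ := open_LW hd h1 h2 ha hk u (half_pos hη)
  obtain ⟨e₂, he₂, hE⟩ := near_eqL (Pool.Agent.H15.KM.kmod_all d) hd h1 h2 (p := d + 3) le_rfl ha hk u
    (half_pos hη)
  obtain ⟨δ, hδ, hwp⟩ := to_wp ha hk u (d + 3) C (lt_min he he₂)
  obtain ⟨L, hL1, hon⟩ := once_near HD C hm r ha hk u hδ
  refine ⟨L, hL1, fun T₁ g hg hE0 hLT hB hg2 h hh hn hv hg0 B τ hτ => ?_⟩
  have hg' : IsClassicalSol T₁ (fun t x => landauQ γ (g t x)) g := hg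
  obtain ⟨t₀, h3, h4, h5⟩ := hon T₁ g hg' hLT hE0 hB
  have ht₀ : t₀ ∈ Ico 0 T₁ := ⟨by linarith, h4.trans_le hLT⟩
  have hb₀ := (hB t₀ ht₀ h4.le).1
  have hnear : ∀ y w, |g t₀ y w - mx a k u w| ≤ min e e₂ * Wp (d + 3) w := fun y w =>
    hwp (g t₀ y) (hg'.nonneg t₀ ht₀ y) (fun N v => (hb₀ y).1 N v) (h5 y) w
  obtain ⟨ε, hε, n₀, m₁, hm₁, M₀, U, h6⟩ := hop T₁ g hg hg2 t₀ ht₀ (fun x v => (hnear x v).trans
    (mul_le_mul_of_nonneg_right (min_le_left _ _) (Wp_pos _ v).le)) h hh hn hv hg0 B τ hτ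
  have hgW : ∀ t ∈ Ico t₀ T₁, ∀ x v, |g t x v - mx a k u v| ≤ η / 2 := by
    intro t ht x v
    have hsh : IsLandauSol γ (T₁ - t₀) (fun τ => g (t₀ + τ)) :=
      lsol_one.1 (lsol_shift (lsol_one.2 hg) ht₀.1)
    have k2 := hE (T₁ - t₀) (fun τ => g (t₀ + τ)) hsh (fun y w => by
      show |g (t₀ + 0) y w - _| ≤ _
      rw [add_zero]
      exact (hnear y w).trans (mul_le_mul_of_nonneg_right (min_le_right _ _) (Wp_pos _ w).le))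
      (t - t₀) ⟨by linarith [ht.1], by linarith [ht.2]⟩ x
    have e1 : t₀ + (t - t₀) = t := by ring
    simp only [e1] at k2
    exact (k2 v).trans (mul_le_of_le_one_right (by positivity) (Wp_le_one _ v))
  refine ⟨ε, hε, n₀, m₁, hm₁, M₀, U, fun n hn' => ?_⟩
  obtain ⟨m₀, hm₀, h7⟩ := h6 n hn'
  refine ⟨m₀, hm₀, fun T f hf hfB hfε t ht x => ?_⟩
  obtain ⟨k1, k2, k3, k4, k5⟩ := h7 T f hf hfB hfε t ht x
  refine ⟨k1, k2, k3, fun h8 h9 v => ?_, fun h8 h9 v => (k5 h8 (h4.le.trans h9) v).trans (by linarith)⟩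
  rcases le_total t t₀ with h10 | h10
  · exact (k4 h8 h10 v).trans (by linarith)
  · have j1 := k5 h8 h10 v
    have j2 := hgW t ⟨h10, h9⟩ x v
    rw [abs_le] at j1 j2 ⊢
    constructor <;> linarith [j1.1, j1.2, j2.1, j2.2]

end Pool.Agent.H15.OB
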