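import Pool.Agent.H15.OB.Defs

/-!
# Module Bas: the slices are continuous in `L¹`, uniformly

`ρ = min (r ε₁) 1`; `|F x (v+z) - F y v| ≤ ε₁` and `≤ 2 |Cl (2(d+1))| 2^(2(d+1)) (1+‖v‖)^(-2(d+1))` (as `1 + ‖v‖ ≤ 2 (1 + ‖v+z‖)`), so it is
`≤ √(ε₁ C) wt d v`.
-/

set_option autoImplicit false

open MeasureTheory Set Filter Topology Pool.Agent.H25.Kin Pool.Agent.H37.LT
open Pool.Agent.H15.AV (UNice TSol pair)
open Pool.Agent.H48.CV (EqM)
open Pool.Agent.H48.NE (mx)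
open Pool.Agent.H48.PI (Hs)

namespace Pool.Agent.H15.OB

variable {d : ℕ}

theorem l1_md (Cl : ℕ → ℝ) (r : ℝ → ℝ) {ε : ℝ} (hε : 0 < ε) : ∃ ρ > 0, ∀ (m : ℝ)
    (F : Vec d → Vec d → ℝ), SB Cl m r F → ∀ x y z : Vec d, ‖x - y‖ ≤ ρ → ‖z‖ ≤ ρ →
    ∫ v, |F x (v + z) - F y v| ≤ ε := by
  obtain ⟨I, hI⟩ : ∃ I : ℝ, I = ∫ v, wt d v := ⟨_, rfl⟩
  have hI0 : 0 ≤ I := by rw [hI]; exact integral_nonneg fun z => wt_nonneg z
  obtain ⟨C, hC⟩ : ∃ C : ℝ, C = |Cl (2 * (d + 1))| := ⟨_, rfl⟩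
  have hC0 : 0 ≤ C := by rw [hC]; positivity
  obtain ⟨C', hC'⟩ : ∃ C' : ℝ, C' = (2 ^ (2 * (d + 1)) + 1) * C := ⟨_, rfl⟩
  have hC'0 : 0 ≤ C' := by rw [hC']; positivity
  obtain ⟨e, he⟩ : ∃ e : ℝ, e = ε / (I + 1) := ⟨_, rfl⟩
  have he0 : 0 < e := by rw [he]; positivity
  obtain ⟨ε₁, hε₁⟩ : ∃ ε₁ : ℝ, ε₁ = e ^ 2 / (C' + 1) := ⟨_, rfl⟩
  have hε₁0 : 0 < ε₁ := by rw [hε₁]; positivity
  have hCε : C' * ε₁ ≤ e ^ 2 := by
    rw [hε₁, ← mul_div_assoc, div_le_iff₀ (by positivity)]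
    nlinarith [sq_nonneg e]
  by_cases hr : 0 < r ε₁
  swap
  · exact ⟨1, one_pos, fun m F hF => absurd (hF.md ε₁ hε₁0).1 hr⟩
  refine ⟨min (r ε₁) 1, lt_min hr one_pos, fun m F hF x y z hxy hz => ?_⟩
  have hxy1 : ‖x - y‖ ≤ r ε₁ := hxy.trans (min_le_left _ _)
  have hz1 : ‖z‖ ≤ r ε₁ := hz.trans (min_le_left _ _)
  have hz2 : ‖z‖ ≤ 1 := hz.trans (min_le_right _ _)
  have hdec : ∀ y v, (1 + ‖v‖) ^ (2 * (d + 1)) * F y v ≤ C := fun y v =>
    (hF.dec _ y v).trans (by rw [hC]; exact le_abs_self _)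
  have hpt : ∀ v, |F x (v + z) - F y v| ≤ e * wt d v := by
    intro v
    have hn := norm_nonneg v
    have hp : 0 < (1 + ‖v‖) ^ (d + 1) := by positivity
    have g1 : |F x (v + z) - F y v| ≤ ε₁ := by
      refine (hF.md ε₁ hε₁0).2 x y (v + z) v hxy1 ?_
      rw [add_sub_cancel_left]
      exact hz1
    have g2 : (1 + ‖v‖) ^ (2 * (d + 1)) * |F x (v + z) - F y v| ≤ C' := by
      have a1 : |F x (v + z) - F y v| ≤ F x (v + z) + F y v := by
        have n1 := hF.nn x (v + z)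
        have n2 := hF.nn y v
        rw [abs_le]
        constructor <;> linarith
      have a2 : 1 + ‖v‖ ≤ 2 * (1 + ‖v + z‖) := by
        have h1 : ‖v‖ ≤ ‖v + z‖ + ‖z‖ := by
          have := norm_sub_le (v + z) z
          rwa [add_sub_cancel_right] at this
        have := norm_nonneg (v + z)
        linarith
      have a3 : (1 + ‖v‖) ^ (2 * (d + 1)) * F x (v + z) ≤ 2 ^ (2 * (d + 1)) * C := by
        calc (1 + ‖v‖) ^ (2 * (d + 1)) * F x (v + z) ≤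
              (2 * (1 + ‖v + z‖)) ^ (2 * (d + 1)) * F x (v + z) :=
              mul_le_mul_of_nonneg_right (pow_le_pow_left₀ (by positivity) a2 _) (hF.nn _ _)
          _ = 2 ^ (2 * (d + 1)) * ((1 + ‖v + z‖) ^ (2 * (d + 1)) * F x (v + z)) := by
              rw [mul_pow]; ring
          _ ≤ _ := mul_le_mul_of_nonneg_left (hdec x (v + z)) (by positivity)
      calc (1 + ‖v‖) ^ (2 * (d + 1)) * |F x (v + z) - F y v| ≤
            (1 + ‖v‖) ^ (2 * (d + 1)) * (F x (v + z) + F y v) :=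
            mul_le_mul_of_nonneg_left a1 (by positivity)
        _ = (1 + ‖v‖) ^ (2 * (d + 1)) * F x (v + z) + (1 + ‖v‖) ^ (2 * (d + 1)) * F y v := by ring
        _ ≤ 2 ^ (2 * (d + 1)) * C + C := add_le_add a3 (hdec y v)
        _ = C' := by rw [hC']; ring
    have g3 : ((1 + ‖v‖) ^ (d + 1) * |F x (v + z) - F y v|) ^ 2 ≤ e ^ 2 := by
      have e1 : ((1 + ‖v‖) ^ (d + 1) * |F x (v + z) - F y v|) ^ 2 =
          ((1 + ‖v‖) ^ (2 * (d + 1)) * |F x (v + z) - F y v|) * |F x (v + z) - F y v| := by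
        rw [mul_pow, ← pow_mul]
        ring_nf
      rw [e1]
      exact (mul_le_mul g2 g1 (abs_nonneg _) hC'0).trans hCε
    have g4 := le_of_pow_le_pow_left₀ two_ne_zero he0.le g3
    unfold wt
    rw [← div_eq_mul_inv, le_div_iff₀ hp, mul_comm]
    exact g4
  calc ∫ v, |F x (v + z) - F y v| ≤ ∫ v, e * wt d v :=
        integral_mono_of_nonneg (Eventually.of_forall fun v => abs_nonneg _)
          ((integrable_wt (d := d)).const_mul e) (Eventually.of_forall hpt)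
    _ = e * I := by rw [integral_const_mul, hI]
    _ ≤ ε := by
        rw [he, div_mul_eq_mul_div, div_le_iff₀ (by positivity)]
        nlinarith

end Pool.Agent.H15.OB
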