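import Pool.Agent.H37.LT.Fin
import Pool.Agent.H48.CV.EqmE
import Pool.Agent.H15.AV.Tr

/-!
# Block OB: a global solution with bounds that do not depend on time comes arbitrarily close to its Maxwellian: definitions

No symmetry. `SB`: slices with bounds and a modulus of continuity. `DisTh`: what is used of the collision operator.
-/

set_option autoImplicit false

open MeasureTheory Set Filter Topology Pool.Agent.H25.Kin Pool.Agent.H37.LT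
open Pool.Agent.H15.AV (UNice TSol pair)
open Pool.Agent.H48.CV (EqM)
open Pool.Agent.H48.NE (mx)
open Pool.Agent.H48.PI (Hs)

namespace Pool.Agent.H15.OB

variable {d : ℕ}

/-- `r` is a modulus of continuity of `F` in `(x, v)` -/
def Md (r : ℝ → ℝ) (F : Vec d → Vec d → ℝ) : Prop :=
  ∀ ε > 0, 0 < r ε ∧ ∀ x y v w : Vec d, ‖x - y‖ ≤ r ε → ‖v - w‖ ≤ r ε → |F x v - F y w| ≤ ε

/-- functions of `(x, v)` with bounds -/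
structure SB (Cl : ℕ → ℝ) (m : ℝ) (r : ℝ → ℝ) (F : Vec d → Vec d → ℝ) : Prop where
  cont : Continuous fun q : Vec d × Vec d => F q.1 q.2
  nn : ∀ x v, 0 ≤ F x v
  per : ∀ x v i, F (x + Pi.single i 1) v = F x v
  dec : ∀ (N : ℕ) (x v : Vec d), (1 + ‖v‖) ^ N * F x v ≤ Cl N
  mass : ∀ x, m ≤ ∫ v, F x v
  md : Md r F

/-- what is used of the collision operator `Q` and of its regularized entropy production `D δ` -/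
structure DisTh (d : ℕ) (Q : (Vec d → ℝ) → Vec d → ℝ) (D : ℝ → (Vec d → ℝ) → ℝ) : Prop where
  err : ∀ (Cl : ℕ → ℝ) (A ε : ℝ), 0 < ε → ∃ K : ℝ, 0 ≤ K ∧ ∀ (Cl' : ℕ → ℝ) (η : ℝ), 0 < η →
    ∃ δ₀ > 0, ∀ δ ∈ Ioc (0 : ℝ) δ₀, ∀ g : Vec d → ℝ, UNice Cl' g →
    (∀ (N : ℕ) (v : Vec d), (1 + ‖v‖) ^ N * g v ≤ Cl N) →
    ∀ ψ : Vec d → ℝ, TF A ψ → |∫ w, Q g w * ψ w| ≤ K * D δ g + ε + η
  slice : ∀ (Cl : ℕ → ℝ) (m : ℝ), 0 < m → ∀ a k : ℝ, 0 < a → 0 < k → ∀ (u : Vec d) (ε : ℝ), 0 < ε →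
    ∃ K : ℝ, 0 ≤ K ∧ ∀ (Cl' : ℕ → ℝ) (η : ℝ), 0 < η → ∃ δ₀ > 0, ∀ δ ∈ Ioc (0 : ℝ) δ₀,
    ∀ g : Vec d → ℝ, UNice Cl' g → (∀ (N : ℕ) (v : Vec d), (1 + ‖v‖) ^ N * g v ≤ Cl N) →
    m ≤ ∫ v, g v → ∫ v, |g v - mx a k u v| ≤ ε + K * (D δ g + η + md g (mx a k u))
  low : ∀ (Cl' : ℕ → ℝ) (η : ℝ), 0 < η → ∃ δ₀ > 0, ∀ δ ∈ Ioc (0 : ℝ) δ₀, ∀ g : Vec d → ℝ,
    UNice Cl' g → -η ≤ D δ g
  int : ∀ (T : ℝ) (f : ℝ → Vec d → Vec d → ℝ), IsClassicalSol T (fun t x => Q (f t x)) f →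
    ∀ δ ∈ Ioc (0 : ℝ) 1, ∀ τ ∈ Ioo 0 T, Integrable (fun x => D δ (f τ x)) (muD d)
  cont : ∀ (T : ℝ) (f : ℝ → Vec d → Vec d → ℝ), IsClassicalSol T (fun t x => Q (f t x)) f →
    ∀ δ ∈ Ioc (0 : ℝ) 1, ContinuousOn (fun τ => ∫ x, D δ (f τ x) ∂(muD d)) (Ioo 0 T)
  drop : ∀ (T : ℝ) (f : ℝ → Vec d → Vec d → ℝ), IsClassicalSol T (fun t x => Q (f t x)) f →
    ∀ t₁ t₂ : ℝ, 0 < t₁ → t₁ < t₂ → t₂ < T → ∀ η > 0, ∃ δ₀ > 0, ∀ δ ∈ Ioc (0 : ℝ) δ₀,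
      ∫ τ in t₁..t₂, (∫ x, D δ (f τ x) ∂(muD d)) ≤
        (∫ q, f t₁ q.2 q.1 * Real.log (f t₁ q.2 q.1) ∂(nu d)) -
          (∫ q, f t₂ q.2 q.1 * Real.log (f t₂ q.2 q.1) ∂(nu d)) + η
  inv : ∀ (T : ℝ) (f : ℝ → Vec d → Vec d → ℝ), IsClassicalSol T (fun t x => Q (f t x)) f →
    ∀ (a k : ℝ) (u : Vec d), EqM a k u (f 0) → ∀ t ∈ Ico 0 T, EqM a k u (f t)

end Pool.Agent.H15.OB
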