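import Pool.Agent.H15.OB.Defs
import Pool.Agent.H15.EL.Fin
import Pool.Agent.H19.EN.SFin
import Pool.Agent.H37.LN.MdL
import Pool.Agent.H37.OL.ErrL

/-!
# Module DisL: the Landau operator

`D δ g = DL γ δ g = -∫ Q(G) log G`, `G = g + δ gau`. `err`: `Pool.Agent.H37.OL.err_L`. `slice`: `SliceL` (H19/EN/SFin), the threshold form
gives the linear form with `K = C₀ / min ε₁ ι`, `C₀` a bound of `∫ |g - mx|`. `low`: `dl_nonneg`. `int`, `cont`: `dl_int`, `dl_contOn`, `dl_bd`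
(H15/EL/Cnd). `drop`: `ent_diss` (H15/EL/EntS). `inv`: conservation laws (`landau_inv`).
-/

set_option autoImplicit false

open MeasureTheory Set Filter Topology Pool.Agent.H25.Kin Pool.Agent.H37.LT
open Pool.Agent.H15.AV (UNice TSol pair)
open Pool.Agent.H48.CV (EqM)
open Pool.Agent.H48.NE (mx)
open Pool.Agent.H48.PI (Hs)
open Pool.Agent.H48.PR (Wp)

namespace Pool.Agent.H15.OB

variable {d : ℕ} {γ : ℝ}

private theorem disL_inv (hd : 2 ≤ d) (h1 : -2 < γ) (h2 : γ ≤ 0) {T : ℝ} {f : ℝ → Vec d → Vec d → ℝ}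
    (hf : IsLandauSol γ T f) {a k : ℝ} {u : Vec d} (h0 : EqM a k u (f 0)) {t : ℝ}
    (ht : t ∈ Ico 0 T) : EqM a k u (f t) := by
  have hI := Pool.Agent.H48.LN.landau_inv hd h1 h2 hf
  have key : ∀ p : Vec d → ℝ, PG p → Continuous p →
      (∀ t ∈ Ioo 0 T, ∀ x, ∫ v, landauQ γ (f t x) v * p v = 0) →
      ∫ q, f t q.2 q.1 * p q.1 ∂(nu d) = ∫ q, f 0 q.2 q.1 * p q.1 ∂(nu d) := by
    intro p hp hpc hQ
    have h := mom_const hp hpc hf hQ ht
    unfold mom at h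
    have e : ∀ r : ℝ, ∫ q, f r q.2 q.1 * p q.1 ∂(nu d) =
        ∫ q, (fun _ : Vec d => (1 : ℝ)) q.2 * p q.1 * f r q.2 q.1 ∂(nu d) := by
      intro r
      refine integral_congr_ae (Eventually.of_forall fun q => ?_)
      simp only
      ring
    rw [e t, e 0]
    exact h
  refine ⟨h0.ha, h0.hk, ?_, fun i => ?_, ?_⟩
  · rw [← h0.mass]
    have h := key (fun _ => 1) PG.one continuous_const fun t ht x => by
      simpa using (hI t ht x).1
    simpa using h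
  · rw [← h0.mom i]
    exact key (fun v => v i) (PG.coord i) (continuous_apply i) fun t ht x => (hI t ht x).2.1 i
  · rw [← h0.ene]
    exact key nsq PG.nsq continuous_sq fun t ht x => (hI t ht x).2.2

private theorem disL_Wp {Cl : ℕ → ℝ} {g : Vec d → ℝ} (hg : ∀ v, 0 ≤ g v)
    (hl : ∀ (N : ℕ) (v : Vec d), (1 + ‖v‖) ^ N * g v ≤ Cl N) (v : Vec d) :
    g v ≤ ((d : ℝ) + 1) ^ (d + 10) * |Cl (2 * (d + 10))| * Wp (d + 10) v := by
  have hn := norm_nonneg v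
  have hs := sq_nonneg' v
  have h1 : 1 + nsq v ≤ ((d : ℝ) + 1) * (1 + ‖v‖) ^ 2 := by
    have h3 := sq_le v
    have h4 : (0 : ℝ) ≤ d := Nat.cast_nonneg d
    have h5 : ‖v‖ ^ 2 ≤ (1 + ‖v‖) ^ 2 := pow_le_pow_left₀ hn (by linarith) 2
    have h6 : (1 : ℝ) ≤ (1 + ‖v‖) ^ 2 := one_le_pow₀ (by linarith)
    nlinarith [mul_le_mul_of_nonneg_left h5 h4]
  have h2 : (1 + nsq v) ^ (d + 10) ≤ ((d : ℝ) + 1) ^ (d + 10) * (1 + ‖v‖) ^ (2 * (d + 10)) := by
    calc (1 + nsq v) ^ (d + 10) ≤ (((d : ℝ) + 1) * (1 + ‖v‖) ^ 2) ^ (d + 10) :=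
          pow_le_pow_left₀ (by linarith) h1 _
      _ = ((d : ℝ) + 1) ^ (d + 10) * (1 + ‖v‖) ^ (2 * (d + 10)) := by
          rw [mul_pow, ← pow_mul]
  have hp : 0 < (1 + nsq v) ^ (d + 10) := by positivity
  unfold Wp
  rw [← div_eq_mul_inv, le_div_iff₀ hp]
  calc g v * (1 + nsq v) ^ (d + 10)
      ≤ g v * (((d : ℝ) + 1) ^ (d + 10) * (1 + ‖v‖) ^ (2 * (d + 10))) :=
        mul_le_mul_of_nonneg_left h2 (hg v)
    _ = ((d : ℝ) + 1) ^ (d + 10) * ((1 + ‖v‖) ^ (2 * (d + 10)) * g v) := by ring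
    _ ≤ ((d : ℝ) + 1) ^ (d + 10) * |Cl (2 * (d + 10))| :=
        mul_le_mul_of_nonneg_left ((hl _ v).trans (le_abs_self _)) (by positivity)

private theorem disL_md_nonneg (g μ : Vec d → ℝ) : 0 ≤ md g μ := by
  unfold md
  have h : 0 ≤ ∑ i, |(∫ v, g v * v i) - ∫ v, μ v * v i| :=
    Finset.sum_nonneg fun i _ => abs_nonneg _
  have h1 := abs_nonneg ((∫ v, g v) - ∫ v, μ v)
  have h2 := abs_nonneg ((∫ v, g v * nsq v) - ∫ v, μ v * nsq v)
  linarith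

private theorem disL_l1 {Cl : ℕ → ℝ} {a k : ℝ} (ha : 0 < a) (hk : 0 < k) (u : Vec d) {g : Vec d → ℝ}
    (hc : Continuous g) (hg : ∀ v, 0 ≤ g v)
    (hl : ∀ (N : ℕ) (v : Vec d), (1 + ‖v‖) ^ N * g v ≤ Cl N) :
    ∫ v, |g v - mx a k u v| ≤ |Cl (d + 1)| * (∫ z, wt d z) + ∫ v, mx a k u v := by
  obtain ⟨Cm, hCm⟩ := Pool.Agent.H48.NE.mx_FB (d := d) ha hk u
  have hmi : Integrable (mx a k u) :=
    hCm.nice.rd.integrable hCm.nice.cont.aestronglyMeasurable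
  have hgw : ∀ v, g v ≤ |Cl (d + 1)| * wt d v := by
    intro v
    have hn := norm_nonneg v
    have hp : 0 < (1 + ‖v‖) ^ (d + 1) := by positivity
    unfold wt
    rw [← div_eq_mul_inv, le_div_iff₀ hp, mul_comm]
    exact (hl _ v).trans (le_abs_self _)
  have hgi : Integrable g := by
    refine (integrable_wt.const_mul |Cl (d + 1)|).mono' hc.aestronglyMeasurable
      (Eventually.of_forall fun v => ?_)
    rw [Real.norm_of_nonneg (hg v)]
    exact hgw v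
  rw [← integral_const_mul, ← integral_add (integrable_wt.const_mul _) hmi]
  refine integral_mono (hgi.sub hmi).abs ((integrable_wt.const_mul _).add hmi) fun v => ?_
  have e1 := hg v
  have e2 := hCm.nonneg v
  have e3 := hgw v
  show |g v - mx a k u v| ≤ |Cl (d + 1)| * wt d v + mx a k u v
  rw [abs_le]
  constructor <;> linarith

private theorem disL_cont (h1 : -2 < γ) (h2 : γ ≤ 0) {T : ℝ} {f : ℝ → Vec d → Vec d → ℝ}
    (hf : IsLandauSol γ T f) {δ : ℝ} (hδ : δ ∈ Ioc (0 : ℝ) 1) :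
    ContinuousOn (fun τ => ∫ x, Pool.Agent.H37.LN.DL γ δ (f τ x) ∂(muD d)) (Ioo 0 T) := by
  intro τ hτ
  refine ContinuousAt.continuousWithinAt ?_
  obtain ⟨K, hK⟩ := Pool.Agent.H15.EL.dl_bd h1 h2 hf hδ (T₀ := τ / 2) (T₁ := (τ + T) / 2)
    (by linarith [hτ.1]) (by linarith [hτ.2])
  have hcon := Pool.Agent.H15.EL.dl_contOn h1 h2 hf hδ
  have hnb : Icc (τ / 2) ((τ + T) / 2) ∈ 𝓝 τ :=
    Icc_mem_nhds (by linarith [hτ.1]) (by linarith [hτ.2])
  have hnb2 : Ioo 0 T ∈ 𝓝 τ := Ioo_mem_nhds hτ.1 hτ.2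
  refine continuousAt_of_dominated (bound := fun _ => K) ?_ ?_ (integrable_const K) ?_
  · filter_upwards [hnb2] with t ht
    exact (hcon.comp_continuous (f := fun x : Vec d => (t, x)) (by fun_prop)
      fun x => ⟨ht, mem_univ _⟩).aestronglyMeasurable
  · filter_upwards [hnb] with t ht
    exact Eventually.of_forall fun x => hK t ht x
  · refine Eventually.of_forall fun x => ?_
    have hc : ContinuousOn (fun t : ℝ => Pool.Agent.H37.LN.DL γ δ (f t x)) (Ioo 0 T) :=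
      hcon.comp (f := fun t : ℝ => (t, x)) (by fun_prop) fun t ht => ⟨ht, mem_univ _⟩
    exact hc.continuousAt hnb2

theorem disL (hd : 2 ≤ d) (h1 : -2 < γ) (h2 : γ ≤ 0) :
    DisTh d (landauQ γ) (Pool.Agent.H37.LN.DL γ) := by
  refine ⟨?_, ?_, ?_, ?_, ?_, ?_, ?_⟩
  · intro Cl A ε hε
    exact Pool.Agent.H37.OL.err_L hd h1 h2 Cl A ε hε
  · intro Cl m hm a k ha hk u ε hε
    obtain ⟨ε₁, hε₁, ι, hι, δ₀, hδ₀, h⟩ := Pool.Agent.H19.EN.sliceL hd h1 h2 a k ha hk u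
      (((d : ℝ) + 1) ^ (d + 10) * |Cl (2 * (d + 10))|) m ε hm hε
    obtain ⟨C₀, hC₀⟩ : ∃ C₀ : ℝ, C₀ = |Cl (d + 1)| * (∫ z, wt d z) + ∫ v, mx a k u v := ⟨_, rfl⟩
    have hC0 : 0 ≤ C₀ := by
      obtain ⟨Cm, hCm⟩ := Pool.Agent.H48.NE.mx_FB (d := d) ha hk u
      have e1 : 0 ≤ ∫ z, wt d z := integral_nonneg fun z => wt_nonneg z
      have e2 : 0 ≤ ∫ v, mx a k u v := integral_nonneg fun v => hCm.nonneg v
      rw [hC₀]
      positivity
    have hmin : 0 < min ε₁ ι := lt_min hε₁ hι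
    refine ⟨C₀ / min ε₁ ι, by positivity, fun Cl' η hη => ⟨min δ₀ 1, lt_min hδ₀ one_pos,
      fun δ hδ g hg hl hmass => ?_⟩⟩
    have hδ1 : δ ∈ Ioc (0 : ℝ) 1 := ⟨hδ.1, hδ.2.trans (min_le_right _ _)⟩
    have hD := Pool.Agent.H15.EL.dl_nonneg h1 h2 hg hδ1
    have hM := disL_md_nonneg g (mx a k u)
    have hK : 0 ≤ C₀ / min ε₁ ι := by positivity
    by_cases hc : Pool.Agent.H37.LN.DL γ δ g ≤ ε₁ ∧ md g (mx a k u) ≤ ι
    · have h3 := h δ ⟨hδ.1, hδ.2.trans (min_le_left _ _)⟩ g hg.nice hg.nonneg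
        (disL_Wp hg.nonneg hl) hmass hc.2 hc.1
      have h4 : 0 ≤ C₀ / min ε₁ ι *
          (Pool.Agent.H37.LN.DL γ δ g + η + md g (mx a k u)) := by positivity
      linarith
    · have h3 := disL_l1 ha hk u hg.nice.cont hg.nonneg hl
      rw [← hC₀] at h3
      have h4 : min ε₁ ι ≤ Pool.Agent.H37.LN.DL γ δ g + η + md g (mx a k u) := by
        rcases not_and_or.1 hc with hc | hc
        · have := min_le_left ε₁ ι
          linarith [not_le.1 hc]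
        · have := min_le_right ε₁ ι
          linarith [not_le.1 hc]
      have h5 : C₀ ≤ C₀ / min ε₁ ι *
          (Pool.Agent.H37.LN.DL γ δ g + η + md g (mx a k u)) := by
        calc C₀ = C₀ / min ε₁ ι * min ε₁ ι := by field_simp
          _ ≤ _ := mul_le_mul_of_nonneg_left h4 hK
      linarith
  · intro Cl' η hη
    refine ⟨1, one_pos, fun δ hδ g hg => ?_⟩
    have := Pool.Agent.H15.EL.dl_nonneg h1 h2 hg hδ
    linarith
  · intro T f hf δ hδ τ hτ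
    exact Pool.Agent.H15.EL.dl_int h1 h2 hf hδ hτ
  · intro T f hf δ hδ
    exact disL_cont h1 h2 hf hδ
  · intro T f hf t₁ t₂ ht₁ h12 ht₂ η hη
    obtain ⟨δ₁, hδ₁, -, h⟩ := Pool.Agent.H15.EL.ent_diss hd h1 h2 hf ht₁ h12 ht₂ hη
    exact ⟨δ₁, hδ₁, h⟩
  · intro T f hf a k u h0 t ht
    exact disL_inv hd h1 h2 hf h0 ht

end Pool.Agent.H15.OB
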