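import Pool.Agent.H15.OB.Defs

/-!
# Module Sup: from `L¹` to the sup norm

If `|F x₀ v₀ - mx v₀| > δ` then `|F x v - mx v| ≥ δ/2` on the ball `‖x-x₀‖, ‖v-v₀‖ ≤ ρ` (`Md` with `δ/8`, `mx` uniformly continuous), so the integral
over the unit cube (periodicity in `x`: choose `x₀` in the cube; a translate of the half-open cube may be used, or the corner of the cube nearest to `x₀`) is at least `c δ ρ^(2d)`.
-/

set_option autoImplicit false

open MeasureTheory Set Filter Topology Pool.Agent.H25.Kin Pool.Agent.H37.LT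
open Pool.Agent.H15.AV (UNice TSol pair)
open Pool.Agent.H48.CV (EqM)
open Pool.Agent.H48.NE (mx)
open Pool.Agent.H48.PI (Hs)

namespace Pool.Agent.H15.OB

variable {d : ℕ}

private lemma Sup_lip {a k : ℝ} (ha : 0 < a) (hk : 0 < k) (u : Vec d) :
    ∃ L : ℝ, 0 < L ∧ ∀ v w : Vec d, |mx a k u v - mx a k u w| ≤ L * ‖v - w‖ := by
  have hn : Nice (mx a k u) := Pool.Agent.H48.NE.mx_nice ha hk u
  obtain ⟨C, hC⟩ := hn.rd1 0
  refine ⟨|C| + 1, by positivity, fun v w => ?_⟩
  have hb : ∀ x ∈ (univ : Set (Vec d)), ‖fderiv ℝ (mx a k u) x‖ ≤ |C| + 1 := by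
    intro x _
    have h := hC x
    rw [pow_zero, one_mul] at h
    linarith [le_abs_self C]
  have h := convex_univ.norm_image_sub_le_of_norm_fderiv_le (f := mx a k u) (𝕜 := ℝ)
    (fun x _ => hn.diff x) hb (mem_univ w) (mem_univ v)
  simpa only [Real.norm_eq_abs] using h

private lemma Sup_frac {G : Vec d → ℝ} (hG : Per G) (x : Vec d) :
    ∃ y : Vec d, (∀ i, 0 ≤ y i ∧ y i ≤ 1) ∧ G y = G x := by
  refine ⟨fun i => Int.fract (x i), fun i => ⟨Int.fract_nonneg _, (Int.fract_lt_one _).le⟩, ?_⟩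
  have hl : (fun i => ((⌊x i⌋ : ℤ) : ℝ)) ∈
      Submodule.span ℤ (Set.range (Pi.basisFun ℝ (Fin d))) := by
    rw [Module.Basis.mem_span_iff_repr_mem]
    intro i
    exact ⟨⌊x i⌋, by simp⟩
  have h := hG.span hl fun i => Int.fract (x i)
  rw [← h]
  congr 1
  funext i
  exact Int.floor_add_fract (x i)

private lemma Sup_box {G : Vec d × Vec d → ℝ} (hG : Integrable G (nu d)) (h0 : ∀ q, 0 ≤ G q)
    {v₀ lo : Vec d} {ρ c : ℝ} (hρ : 0 ≤ ρ) (hlo : ∀ i, 0 ≤ lo i)
    (hhi : ∀ i, lo i + ρ ≤ 1)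
    (h : ∀ q : Vec d × Vec d, (∀ i, v₀ i ≤ q.1 i ∧ q.1 i ≤ v₀ i + ρ) →
      (∀ i, lo i ≤ q.2 i ∧ q.2 i ≤ lo i + ρ) → c ≤ G q) :
    c * (ρ ^ d * ρ ^ d) ≤ ∫ q, G q ∂(nu d) := by
  set A : Set (Vec d) := Icc v₀ (fun i => v₀ i + ρ) with hA
  set B : Set (Vec d) := Icc lo (fun i => lo i + ρ) with hB
  have hBs : B ⊆ Icc (0 : Vec d) 1 := by
    intro x hx
    exact ⟨fun i => (hlo i).trans (hx.1 i), fun i => (hx.2 i).trans (hhi i)⟩
  have mA : volume A = ENNReal.ofReal (ρ ^ d) := by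
    rw [hA, Real.volume_Icc_pi]
    simp only [add_sub_cancel_left, Finset.prod_const, Finset.card_univ, Fintype.card_fin]
    rw [ENNReal.ofReal_pow hρ]
  have mB : muD d B = ENNReal.ofReal (ρ ^ d) := by
    unfold muD
    rw [Measure.restrict_apply measurableSet_Icc, inter_eq_left.2 hBs, hB, Real.volume_Icc_pi]
    simp only [add_sub_cancel_left, Finset.prod_const, Finset.card_univ, Fintype.card_fin]
    rw [ENNReal.ofReal_pow hρ]
  have mS : nu d (A ×ˢ B) = ENNReal.ofReal (ρ ^ d * ρ ^ d) := by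
    unfold nu
    rw [Measure.prod_prod, mA, mB, ENNReal.ofReal_mul (pow_nonneg hρ d)]
  have hr : (nu d).real (A ×ˢ B) = ρ ^ d * ρ ^ d := by
    unfold Measure.real
    rw [mS, ENNReal.toReal_ofReal (by positivity)]
  have h1 := setIntegral_ge_of_const_le_real (μ := nu d) (s := A ×ˢ B) (f := G) (c := c)
    (measurableSet_Icc.prod measurableSet_Icc) (by rw [mS]; exact ENNReal.ofReal_ne_top)
    (fun q hq => h q (fun i => ⟨hq.1.1 i, hq.1.2 i⟩) fun i => ⟨hq.2.1 i, hq.2.2 i⟩)
    hG.integrableOn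
  rw [hr] at h1
  exact h1.trans (setIntegral_le_integral hG (Eventually.of_forall h0))

private lemma Sup_int {Cl : ℕ → ℝ} {m : ℝ} {r : ℝ → ℝ} {a k : ℝ} (ha : 0 < a) (hk : 0 < k)
    (u : Vec d) {F : Vec d → Vec d → ℝ} (hF : SB Cl m r F) :
    Integrable (fun q : Vec d × Vec d => |F q.2 q.1 - mx a k u q.1|) (nu d) := by
  have hn : Nice (mx a k u) := Pool.Agent.H48.NE.mx_nice ha hk u
  obtain ⟨C₂, hC₂⟩ := hn.rd (d + 1)
  have hwt : ∀ v : Vec d, |mx a k u v| ≤ C₂ * wt d v := by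
    intro v
    have h2 : 0 < (1 + ‖v‖) ^ (d + 1) := pow_pos (w_pos v) _
    have h1 := hC₂ v
    unfold wt
    rw [← div_eq_mul_inv, le_div_iff₀ h2, mul_comm]
    exact h1
  have hwf : ∀ x v : Vec d, |F x v| ≤ Cl (d + 1) * wt d v := by
    intro x v
    have h2 : 0 < (1 + ‖v‖) ^ (d + 1) := pow_pos (w_pos v) _
    have h1 := hF.dec (d + 1) x v
    rw [abs_of_nonneg (hF.nn x v)]
    unfold wt
    rw [← div_eq_mul_inv, le_div_iff₀ h2, mul_comm]
    exact h1
  have hcont : Continuous fun q : Vec d × Vec d => |F q.2 q.1 - mx a k u q.1| :=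
    ((hF.cont.comp (by fun_prop : Continuous fun q : Vec d × Vec d => (q.2, q.1))).sub
      (hn.cont.comp continuous_fst)).abs
  refine integrable_nu (C := Cl (d + 1) + C₂) hcont.aestronglyMeasurable fun q => ?_
  rw [abs_abs]
  refine (abs_sub _ _).trans ?_
  rw [add_mul]
  exact add_le_add (hwf _ _) (hwt _)

theorem sup_of_l1 (Cl : ℕ → ℝ) (r : ℝ → ℝ) {a k : ℝ} (ha : 0 < a) (hk : 0 < k) (u : Vec d) {δ : ℝ}
    (hδ : 0 < δ) : ∃ ε > 0, ∀ (m : ℝ) (F : Vec d → Vec d → ℝ), SB Cl m r F →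
    ∫ q, |F q.2 q.1 - mx a k u q.1| ∂(nu d) ≤ ε → ∀ x v, |F x v - mx a k u v| ≤ δ := by
  by_cases hr : 0 < r (δ / 4)
  · obtain ⟨L, hL, hlip⟩ := Sup_lip ha hk u
    obtain ⟨ρ, hρ, h1, h2, h3⟩ : ∃ ρ : ℝ, 0 < ρ ∧ ρ ≤ r (δ / 4) ∧ ρ ≤ δ / (4 * L) ∧ ρ ≤ 1 / 2 :=
      ⟨min (min (r (δ / 4)) (δ / (4 * L))) (1 / 2),
        lt_min (lt_min hr (by positivity)) (by norm_num),
        (min_le_left _ _).trans (min_le_left _ _), (min_le_left _ _).trans (min_le_right _ _),
        min_le_right _ _⟩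
    have hLρ : L * ρ ≤ δ / 4 := by
      rw [le_div_iff₀ (by positivity)] at h2
      linarith
    have hpos : 0 < ρ ^ d * ρ ^ d := by positivity
    refine ⟨δ / 4 * (ρ ^ d * ρ ^ d), by positivity, fun m F hF hI x v => ?_⟩
    by_contra hcon
    rw [not_le] at hcon
    obtain ⟨y, hy, hyF⟩ := Sup_frac (G := fun x => F x v) (fun x i => hF.per x v i) x
    have hyF' : F y v = F x v := hyF
    rw [← hyF'] at hcon
    have hb := Sup_box (Sup_int ha hk u hF) (fun q => abs_nonneg _) (v₀ := v)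
      (lo := fun i => if y i ≤ 1 / 2 then y i else y i - ρ) (ρ := ρ) (c := δ / 2) hρ.le
      (fun i => by
        have := hy i
        by_cases hi : y i ≤ 1 / 2
        · simp only [hi, if_true]; exact this.1
        · simp only [hi, if_false]
          rw [not_le] at hi
          linarith)
      (fun i => by
        have := hy i
        by_cases hi : y i ≤ 1 / 2
        · simp only [hi, if_true]; linarith
        · simp only [hi, if_false]
          linarith)
      (fun q hq1 hq2 => by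
        have e1 : ‖q.1 - v‖ ≤ ρ := by
          rw [pi_norm_le_iff_of_nonneg hρ.le]
          intro i
          rw [Pi.sub_apply, Real.norm_eq_abs, abs_le]
          have := hq1 i
          constructor <;> linarith
        have e2 : ‖q.2 - y‖ ≤ ρ := by
          rw [pi_norm_le_iff_of_nonneg hρ.le]
          intro i
          rw [Pi.sub_apply, Real.norm_eq_abs, abs_le]
          have := hq2 i
          by_cases hi : y i ≤ 1 / 2
          · simp only [hi, if_true] at this
            constructor <;> linarith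
          · simp only [hi, if_false] at this
            constructor <;> linarith
        have e3 := (hF.md (δ / 4) (by positivity)).2 q.2 y q.1 v (e2.trans h1) (e1.trans h1)
        have e4 := (hlip q.1 v).trans ((mul_le_mul_of_nonneg_left e1 hL.le).trans hLρ)
        have e5 : |F y v - mx a k u v| ≤ |F q.2 q.1 - F y v| + |mx a k u q.1 - mx a k u v| +
            |F q.2 q.1 - mx a k u q.1| := by
          have t : F y v - mx a k u v = -(F q.2 q.1 - F y v) + (mx a k u q.1 - mx a k u v) +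
            (F q.2 q.1 - mx a k u q.1) := by ring
          rw [t]
          refine (abs_add_le _ _).trans (add_le_add_left ((abs_add_le _ _).trans ?_) _)
          rw [abs_neg]
        linarith)
    nlinarith [mul_pos hδ hpos]
  · refine ⟨1, one_pos, fun m F hF _ => ?_⟩
    exact absurd (hF.md (δ / 4) (by positivity)).1 hr

end Pool.Agent.H15.OB
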