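import Pool.Agent.H15.OB.Tim
import Pool.Agent.H15.OB.Sup

/-!
# Module Fin: the Maxwellian of the initial value is in the closure of the orbit

`eqm_exists` for `g 0`; `sup_of_l1` for `δ`, `l1_exists` for its `ε`.
-/

set_option autoImplicit false

open MeasureTheory Set Filter Topology Pool.Agent.H25.Kin Pool.Agent.H37.LT
open Pool.Agent.H15.AV (UNice TSol pair)
open Pool.Agent.H48.CV (EqM)
open Pool.Agent.H48.NE (mx)
open Pool.Agent.H48.PI (Hs)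
open Pool.Agent.H48.PL (muD_univ)

namespace Pool.Agent.H15.OB

variable {d : ℕ} {Q : (Vec d → ℝ) → Vec d → ℝ} {D : ℝ → (Vec d → ℝ) → ℝ}

/-- uniform form -/
theorem orbit_unif (HD : DisTh d Q D) (Cl : ℕ → ℝ) {m : ℝ} (hm : 0 < m) (r : ℝ → ℝ) {a k : ℝ}
    (ha : 0 < a) (hk : 0 < k) (u : Vec d) {δ : ℝ} (hδ : 0 < δ) : ∃ n : ℝ, 1 ≤ n ∧
    ∀ (T : ℝ) (f : ℝ → Vec d → Vec d → ℝ), IsClassicalSol T (fun t x => Q (f t x)) f →
    (∀ t ∈ Ico 0 T, ∀ (N : ℕ) (x v : Vec d), (1 + ‖v‖) ^ N * f t x v ≤ Cl N) →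
    (∀ t ∈ Ico 1 T, SB Cl m r (f t)) → EqM a k u (f 0) → n < T →
    ∃ t ∈ Icc 1 n, ∀ x v, |f t x v - mx a k u v| ≤ δ := by
  obtain ⟨ε, hε, hS⟩ := sup_of_l1 Cl r ha hk u hδ
  obtain ⟨n, hn, hL⟩ := l1_exists HD Cl hm r ha hk u hε
  refine ⟨n, hn, fun T f hf hdec hSB h0 hnT => ?_⟩
  obtain ⟨t, ht, h1⟩ := hL T f hf hdec hSB h0 hnT
  exact ⟨t, ht, hS m (f t) (hSB t ⟨ht.1, ht.2.trans_lt hnT⟩) h1⟩

theorem orbit (HD : DisTh d Q D) (hd : 1 ≤ d) {Cl : ℕ → ℝ} {m : ℝ} (hm : 0 < m) {r : ℝ → ℝ}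
    {g : ℝ → Vec d → Vec d → ℝ} (hg : ∀ T, IsClassicalSol T (fun t x => Q (g t x)) g)
    (hdec : ∀ t, 0 ≤ t → ∀ (N : ℕ) (x v : Vec d), (1 + ‖v‖) ^ N * g t x v ≤ Cl N)
    (h0 : ∀ x, 0 < ∫ v, g 0 x v) (hSB : ∀ t, 1 ≤ t → SB Cl m r (g t)) :
    ∃ (a k : ℝ) (u : Vec d), EqM a k u (g 0) ∧
      ∀ δ > 0, ∃ t, 0 ≤ t ∧ ∀ x v, |g t x v - mx a k u v| ≤ δ := by
  have hS : Pool.Agent.H15.AV.Slice (g 0) :=
    Pool.Agent.H15.AV.sol_slice (hg 1) ⟨le_rfl, one_pos⟩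
  have hint : Integrable (fun q : Vec d × Vec d => g 0 q.2 q.1) (nu d) := by
    obtain ⟨C, hC⟩ := hS.decay (d + 1)
    refine integrable_nu (C := C) ?_ fun q => ?_
    · exact (hS.cont.comp (by fun_prop : Continuous fun q : Vec d × Vec d => (q.2, q.1))).aestronglyMeasurable
    · have hn := norm_nonneg q.1
      have hp : 0 < (1 + ‖q.1‖) ^ (d + 1) := by positivity
      rw [abs_of_nonneg (hS.nonneg _ _)]
      unfold wt
      rw [← div_eq_mul_inv, le_div_iff₀ hp, mul_comm]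
      exact hC _ _
  have hpos : 0 < ∫ q, g 0 q.2 q.1 ∂(nu d) := by
    rw [Pool.Agent.H15.AV.nu_integral hint]
    have hi : Integrable (fun x => ∫ v, g 0 x v) (muD d) := by
      have := hint
      unfold nu at this
      exact this.integral_prod_right
    rw [integral_pos_iff_support_of_nonneg (fun x => (h0 x).le) hi]
    have h1 : Function.support (fun x => ∫ v, g 0 x v) = univ := by
      ext x
      simp only [Function.mem_support, mem_univ, iff_true]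
      exact (h0 x).ne'
    rw [h1, muD_univ]
    exact one_pos
  obtain ⟨a, k, u, hE⟩ := Pool.Agent.H48.CV.eqm_exists hd hS hpos
  refine ⟨a, k, u, hE, fun δ hδ => ?_⟩
  obtain ⟨n, hn, h⟩ := orbit_unif HD Cl hm r hE.ha hE.hk u hδ
  obtain ⟨t, ht, h1⟩ := h (n + 1) g (hg _) (fun t ht => hdec t ht.1) (fun t ht => hSB t ht.1) hE
    (by linarith)
  exact ⟨t, by linarith [ht.1], h1⟩

end Pool.Agent.H15.OB
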