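import Mathlib

/-!
# Interpolation: a smooth function with bounded derivatives which decays rapidly has rapidly decaying derivatives

`‖D g (p) e‖ ≤ (‖g (p + r e)‖ + ‖g p‖) / r + C r` with `r = w(p)^(-N)`, induction on the order of the derivative.
-/

set_option autoImplicit false

open Set Filter Topology

namespace Pool.Agent.H15.OB

variable {E : Type*} [NormedAddCommGroup E] [NormedSpace ℝ E]

/-- one step: bounds for `g = D^m f` and `D^(m+2) f` give a bound for `D^(m+1) f` -/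
private theorem itp_step {f : E → ℝ} (hf : ∀ n : ℕ, ContDiff ℝ n f) {w : E → ℝ}
    (hw1 : ∀ p, 1 ≤ w p) (hw2 : ∀ p q, ‖q - p‖ ≤ 1 → w p ≤ 2 * w q) {m : ℕ}
    (hm : ∀ N : ℕ, ∃ C : ℝ, ∀ p, w p ^ N * ‖iteratedFDeriv ℝ m f p‖ ≤ C)
    {C₂ : ℝ} (h2 : ∀ p, ‖iteratedFDeriv ℝ (m + 2) f p‖ ≤ C₂) (N : ℕ) :
    ∃ C : ℝ, ∀ p, w p ^ N * ‖iteratedFDeriv ℝ (m + 1) f p‖ ≤ C := by
  obtain ⟨C₁, hC₁⟩ := hm (2 * N)
  have hC₂ : 0 ≤ C₂ := (norm_nonneg _).trans (h2 0)
  have hgd : Differentiable ℝ (iteratedFDeriv ℝ m f) :=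
    (hf (m + 1)).differentiable_iteratedFDeriv (by exact_mod_cast Nat.lt_succ_self m)
  have hgd1 : Differentiable ℝ (iteratedFDeriv ℝ (m + 1) f) :=
    (hf (m + 2)).differentiable_iteratedFDeriv (by exact_mod_cast Nat.lt_succ_self (m + 1))
  have hgn : ∀ p, ‖fderiv ℝ (iteratedFDeriv ℝ m f) p‖ = ‖iteratedFDeriv ℝ (m + 1) f p‖ := fun p =>
    norm_fderiv_iteratedFDeriv
  -- the derivative of `D^m f` is Lipschitz
  have hlip : ∀ p q, ‖fderiv ℝ (iteratedFDeriv ℝ m f) q - fderiv ℝ (iteratedFDeriv ℝ m f) p‖ ≤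
      C₂ * ‖q - p‖ := by
    intro p q
    have h4 : ∀ z ∈ (univ : Set E), ‖fderiv ℝ (iteratedFDeriv ℝ (m + 1) f) z‖ ≤ C₂ := by
      intro z _
      rw [norm_fderiv_iteratedFDeriv]
      exact h2 z
    have h6 := convex_univ.norm_image_sub_le_of_norm_fderiv_le
      (fun z _ => hgd1 z) h4 (mem_univ p) (mem_univ q)
    have h7 : ‖iteratedFDeriv ℝ (m + 1) f q - iteratedFDeriv ℝ (m + 1) f p‖ =
        ‖fderiv ℝ (iteratedFDeriv ℝ m f) q - fderiv ℝ (iteratedFDeriv ℝ m f) p‖ := by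
      have e : ∀ z, iteratedFDeriv ℝ (m + 1) f z =
          (continuousMultilinearCurryLeftEquiv ℝ (fun _ : Fin (m + 1) => E) ℝ).symm
            (fderiv ℝ (iteratedFDeriv ℝ m f) z) := fun z => by
        rw [iteratedFDeriv_succ_eq_comp_left]
        rfl
      have h8 := LinearIsometryEquiv.map_sub
        (continuousMultilinearCurryLeftEquiv ℝ (fun _ : Fin (m + 1) => E) ℝ).symm
        (fderiv ℝ (iteratedFDeriv ℝ m f) q) (fderiv ℝ (iteratedFDeriv ℝ m f) p)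
      rw [e, e, ← h8]
      exact LinearIsometryEquiv.norm_map _ _
    rw [← h7]
    exact h6
  refine ⟨2 ^ (2 * N) * C₁ + C₁ + C₂, fun p => ?_⟩
  have hwp : 0 < w p := by linarith [hw1 p]
  have hwN : 1 ≤ w p ^ N := one_le_pow₀ (hw1 p)
  set r : ℝ := (w p ^ N)⁻¹ with hr
  have hr0 : 0 < r := by positivity
  have hr1 : r ≤ 1 := inv_le_one_of_one_le₀ hwN
  have hC₁0 : 0 ≤ C₁ := (by positivity : 0 ≤ w p ^ (2 * N) * ‖iteratedFDeriv ℝ m f p‖).trans (hC₁ p)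
  have key : ∀ e : E, ‖e‖ = 1 → ‖fderiv ℝ (iteratedFDeriv ℝ m f) p e‖ ≤
      (2 ^ (2 * N) * C₁ + C₁ + C₂) * r := by
    intro e he
    have hq : ‖p + r • e - p‖ = r := by
      rw [add_sub_cancel_left, norm_smul, he, mul_one, Real.norm_of_nonneg hr0.le]
    have h8 : ‖iteratedFDeriv ℝ m f (p + r • e) - iteratedFDeriv ℝ m f p -
        fderiv ℝ (iteratedFDeriv ℝ m f) p (p + r • e - p)‖ ≤ C₂ * r * ‖p + r • e - p‖ := by
      refine (convex_closedBall p r).norm_image_sub_le_of_norm_hasFDerivWithin_le'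
        (f' := fderiv ℝ (iteratedFDeriv ℝ m f))
        (fun z _ => (hgd z).hasFDerivAt.hasFDerivWithinAt) (fun z hz => ?_)
        (Metric.mem_closedBall_self hr0.le) (by rw [Metric.mem_closedBall, dist_eq_norm, hq])
      refine (hlip p z).trans (mul_le_mul_of_nonneg_left ?_ hC₂)
      rwa [Metric.mem_closedBall, dist_eq_norm] at hz
    rw [hq, add_sub_cancel_left, map_smul] at h8
    have h9 : ‖iteratedFDeriv ℝ m f p‖ ≤ C₁ * (w p ^ (2 * N))⁻¹ := by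
      rw [← div_eq_mul_inv, le_div_iff₀ (by positivity), mul_comm]
      exact hC₁ p
    have h10 : ‖iteratedFDeriv ℝ m f (p + r • e)‖ ≤ 2 ^ (2 * N) * C₁ * (w p ^ (2 * N))⁻¹ := by
      rw [← div_eq_mul_inv, le_div_iff₀ (by positivity), mul_comm]
      have h11 : w p ≤ 2 * w (p + r • e) := hw2 _ _ (by rw [hq]; exact hr1)
      calc w p ^ (2 * N) * ‖iteratedFDeriv ℝ m f (p + r • e)‖
          ≤ (2 * w (p + r • e)) ^ (2 * N) * ‖iteratedFDeriv ℝ m f (p + r • e)‖ :=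
            mul_le_mul_of_nonneg_right (pow_le_pow_left₀ hwp.le h11 _) (norm_nonneg _)
        _ = 2 ^ (2 * N) * (w (p + r • e) ^ (2 * N) * ‖iteratedFDeriv ℝ m f (p + r • e)‖) := by
            rw [mul_pow, mul_assoc]
        _ ≤ 2 ^ (2 * N) * C₁ := mul_le_mul_of_nonneg_left (hC₁ _) (by positivity)
    have h12 : (w p ^ (2 * N))⁻¹ = r * r := by
      rw [hr, ← mul_inv, ← pow_add]
      congr 2
      omega
    rw [h12] at h9 h10
    have h13 : r * ‖fderiv ℝ (iteratedFDeriv ℝ m f) p e‖ ≤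
        (2 ^ (2 * N) * C₁ + C₁ + C₂) * (r * r) := by
      have h14 : r * ‖fderiv ℝ (iteratedFDeriv ℝ m f) p e‖ =
          ‖r • fderiv ℝ (iteratedFDeriv ℝ m f) p e‖ := by
        rw [norm_smul, Real.norm_of_nonneg hr0.le]
      rw [h14]
      have h15 : r • fderiv ℝ (iteratedFDeriv ℝ m f) p e =
          iteratedFDeriv ℝ m f (p + r • e) - iteratedFDeriv ℝ m f p -
          (iteratedFDeriv ℝ m f (p + r • e) - iteratedFDeriv ℝ m f p -
            r • fderiv ℝ (iteratedFDeriv ℝ m f) p e) := by abel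
      rw [h15]
      refine (norm_sub_le _ _).trans ?_
      have h16 := norm_sub_le (iteratedFDeriv ℝ m f (p + r • e)) (iteratedFDeriv ℝ m f p)
      nlinarith [h8, h9, h10, h16]
    have h17 : (2 ^ (2 * N) * C₁ + C₁ + C₂) * (r * r) = r * ((2 ^ (2 * N) * C₁ + C₁ + C₂) * r) := by
      ring
    rw [h17] at h13
    exact le_of_mul_le_mul_left h13 hr0
  have h18 := ContinuousLinearMap.opNorm_le_of_unit_norm (f := fderiv ℝ (iteratedFDeriv ℝ m f) p)
    (C := (2 ^ (2 * N) * C₁ + C₁ + C₂) * r) (by positivity) key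
  rw [hgn] at h18
  calc w p ^ N * ‖iteratedFDeriv ℝ (m + 1) f p‖
      ≤ w p ^ N * ((2 ^ (2 * N) * C₁ + C₁ + C₂) * r) :=
        mul_le_mul_of_nonneg_left h18 (by positivity)
    _ = (2 ^ (2 * N) * C₁ + C₁ + C₂) * (w p ^ N * r) := by ring
    _ = 2 ^ (2 * N) * C₁ + C₁ + C₂ := by
        rw [hr, mul_inv_cancel₀ (by positivity), mul_one]

/-- a smooth function with bounded derivatives which decays rapidly (with respect to a slowly varying weight `w ≥ 1`) has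
rapidly decaying derivatives -/
theorem deriv_decay {f : E → ℝ} (hf : ∀ n : ℕ, ContDiff ℝ n f) {w : E → ℝ}
    (hw1 : ∀ p, 1 ≤ w p) (hw2 : ∀ p q, ‖q - p‖ ≤ 1 → w p ≤ 2 * w q)
    (h0 : ∀ N : ℕ, ∃ C : ℝ, ∀ p, w p ^ N * |f p| ≤ C)
    (h1 : ∀ m : ℕ, ∃ C : ℝ, ∀ p, ‖iteratedFDeriv ℝ m f p‖ ≤ C) (N m : ℕ) :
    ∃ C : ℝ, ∀ p, w p ^ N * ‖iteratedFDeriv ℝ m f p‖ ≤ C := by
  revert N
  induction m with
  | zero =>
    intro N
    obtain ⟨C, hC⟩ := h0 N
    exact ⟨C, fun p => by rw [norm_iteratedFDeriv_zero, Real.norm_eq_abs]; exact hC p⟩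
  | succ m ih =>
    intro N
    obtain ⟨C₂, hC₂⟩ := h1 (m + 2)
    exact itp_step hf hw1 hw2 ih hC₂ N

end Pool.Agent.H15.OB
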