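import Pool.Agent.H15.OB.Itp
import Pool.Agent.H25.Kin.Defs

/-!
# Profiles `h(x,v)`, `h(x,y,v)`: bounded derivatives and rapid decay of `h` give rapid decay of all derivatives
-/

set_option autoImplicit false

open Set Pool.Agent.H25.Kin

namespace Pool.Agent.H15.OB

variable {d : ℕ}

theorem prof_decay {h : Vec d → Vec d → ℝ}
    (hc : ∀ n : ℕ, ContDiff ℝ n (fun p : Vec d × Vec d => h p.1 p.2)) (h0 : ∀ x v, 0 ≤ h x v)
    (hd : ∀ N : ℕ, ∃ C : ℝ, ∀ x v, (1 + ‖v‖) ^ N * h x v ≤ C)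
    (hb : ∀ m : ℕ, ∃ C : ℝ, ∀ x v,
      ‖iteratedFDeriv ℝ m (fun p : Vec d × Vec d => h p.1 p.2) (x, v)‖ ≤ C) (N m : ℕ) :
    ∃ C : ℝ, ∀ x v,
      (1 + ‖v‖) ^ N * ‖iteratedFDeriv ℝ m (fun p : Vec d × Vec d => h p.1 p.2) (x, v)‖ ≤ C := by
  obtain ⟨C, hC⟩ := deriv_decay (f := fun p : Vec d × Vec d => h p.1 p.2)
    (w := fun p => 1 + ‖p.2‖) hc (fun p => by linarith [norm_nonneg p.2])
    (fun p q hpq => by
      have h1 : ‖q.2 - p.2‖ ≤ 1 := (norm_snd_le (q - p)).trans hpq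
      have h2 : ‖p.2‖ ≤ ‖q.2‖ + ‖q.2 - p.2‖ := by
        have h3 := norm_sub_le q.2 (q.2 - p.2)
        rwa [sub_sub_cancel] at h3
      linarith [norm_nonneg q.2])
    (fun K => by
      obtain ⟨C, hC⟩ := hd K
      refine ⟨C, fun p => ?_⟩
      rw [abs_of_nonneg (h0 _ _)]
      exact hC p.1 p.2)
    (fun K => by
      obtain ⟨C, hC⟩ := hb K
      exact ⟨C, fun p => hC p.1 p.2⟩) N m
  exact ⟨C, fun x v => hC (x, v)⟩

theorem two_decay {h : Vec d → Vec d → Vec d → ℝ}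
    (hc : ∀ n : ℕ, ContDiff ℝ n (fun p : Vec d × Vec d × Vec d => h p.1 p.2.1 p.2.2))
    (h0 : ∀ x y v, 0 ≤ h x y v)
    (hd : ∀ N : ℕ, ∃ C : ℝ, ∀ x y v, (1 + ‖v‖) ^ N * h x y v ≤ C)
    (hb : ∀ m : ℕ, ∃ C : ℝ, ∀ x y v,
      ‖iteratedFDeriv ℝ m (fun p : Vec d × Vec d × Vec d => h p.1 p.2.1 p.2.2) (x, y, v)‖ ≤ C)
    (N m : ℕ) : ∃ C : ℝ, ∀ x y v, (1 + ‖v‖) ^ N *
      ‖iteratedFDeriv ℝ m (fun p : Vec d × Vec d × Vec d => h p.1 p.2.1 p.2.2) (x, y, v)‖ ≤ C := by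
  obtain ⟨C, hC⟩ := deriv_decay (f := fun p : Vec d × Vec d × Vec d => h p.1 p.2.1 p.2.2)
    (w := fun p => 1 + ‖p.2.2‖) hc (fun p => by linarith [norm_nonneg p.2.2])
    (fun p q hpq => by
      have h1 : ‖q.2.2 - p.2.2‖ ≤ 1 :=
        (norm_snd_le (q - p).2).trans ((norm_snd_le (q - p)).trans hpq)
      have h2 : ‖p.2.2‖ ≤ ‖q.2.2‖ + ‖q.2.2 - p.2.2‖ := by
        have h3 := norm_sub_le q.2.2 (q.2.2 - p.2.2)
        rwa [sub_sub_cancel] at h3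
      linarith [norm_nonneg q.2.2])
    (fun K => by
      obtain ⟨C, hC⟩ := hd K
      refine ⟨C, fun p => ?_⟩
      rw [abs_of_nonneg (h0 _ _ _)]
      exact hC p.1 p.2.1 p.2.2)
    (fun K => by
      obtain ⟨C, hC⟩ := hb K
      exact ⟨C, fun p => hC p.1 p.2.1 p.2.2⟩) N m
  exact ⟨C, fun x y v => hC (x, y, v)⟩

end Pool.Agent.H15.OB
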