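import Pool.Agent.H15.OB.Defs

/-!
# Module Lip: approximation by Lipschitz functions

`ψ' x = ⨅ y, ψ y + K ‖x - y‖` with `K = 2 A / ρ` (`A ≥ 0`): `ψ x - ε ≤ ψ' x ≤ ψ x` (for `‖x-y‖ > ρ` the value is `≥ -A + 2A`).
-/

set_option autoImplicit false

open MeasureTheory Set Filter Topology Pool.Agent.H25.Kin Pool.Agent.H37.LT
open Pool.Agent.H15.AV (UNice TSol pair)
open Pool.Agent.H48.CV (EqM)
open Pool.Agent.H48.NE (mx)
open Pool.Agent.H48.PI (Hs)

namespace Pool.Agent.H15.OB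

variable {d : ℕ}

theorem lip_approx {ρ : ℝ} (hρ : 0 < ρ) (A : ℝ) {ε : ℝ} (hε : 0 < ε) : ∃ K : ℝ, 0 ≤ K ∧
    ∀ ψ : Vec d → ℝ, Per ψ → (∀ x, |ψ x| ≤ A) → (∀ x y, ‖x - y‖ ≤ ρ → |ψ x - ψ y| ≤ ε) →
    ∃ ψ' : Vec d → ℝ, Per ψ' ∧ (∀ x, |ψ' x| ≤ A) ∧ (∀ x y, |ψ' x - ψ' y| ≤ K * ‖x - y‖) ∧
      ∀ x, |ψ x - ψ' x| ≤ ε := by
  have hK : 0 ≤ 2 * |A| / ρ := by positivity
  refine ⟨2 * |A| / ρ, hK, fun ψ hper hA hmod => ?_⟩
  set K := 2 * |A| / ρ with hKdef
  have hA0 : 0 ≤ A := le_trans (abs_nonneg _) (hA 0)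
  have hlow : ∀ x y : Vec d, -A ≤ ψ y + K * ‖x - y‖ := by
    intro x y
    have h1 := (abs_le.1 (hA y)).1
    have h2 : 0 ≤ K * ‖x - y‖ := mul_nonneg hK (norm_nonneg _)
    linarith
  have hbdd : ∀ x : Vec d, BddBelow (Set.range fun y => ψ y + K * ‖x - y‖) := by
    intro x
    refine ⟨-A, ?_⟩
    rintro _ ⟨y, rfl⟩
    exact hlow x y
  have hle : ∀ x : Vec d, (⨅ y, (ψ y + K * ‖x - y‖)) ≤ ψ x := by
    intro x
    have h := ciInf_le (hbdd x) x
    simpa using h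
  have hge : ∀ x : Vec d, ψ x - ε ≤ ⨅ y, (ψ y + K * ‖x - y‖) := by
    intro x
    refine le_ciInf (fun y => ?_)
    rcases le_or_gt ‖x - y‖ ρ with h | h
    · have h1 := (abs_le.1 (hmod x y h)).2
      have h2 : 0 ≤ K * ‖x - y‖ := mul_nonneg hK (norm_nonneg _)
      linarith
    · have h1 : K * ρ ≤ K * ‖x - y‖ := mul_le_mul_of_nonneg_left h.le hK
      have h2 : K * ρ = 2 * |A| := by
        rw [hKdef]
        field_simp
      rw [abs_of_nonneg hA0] at h2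
      have h3 := (abs_le.1 (hA y)).1
      have h4 := (abs_le.1 (hA x)).2
      linarith
  have hlip : ∀ x y : Vec d, (⨅ z, (ψ z + K * ‖x - z‖)) ≤
      (⨅ z, (ψ z + K * ‖y - z‖)) + K * ‖x - y‖ := by
    intro x y
    rw [← sub_le_iff_le_add]
    refine le_ciInf (fun z => ?_)
    have h1 := ciInf_le (hbdd x) z
    have h2 : ‖x - z‖ ≤ ‖y - z‖ + ‖x - y‖ := by
      have := norm_add_le (x - y) (y - z)
      rw [sub_add_sub_cancel] at this
      linarith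
    have h3 : K * ‖x - z‖ ≤ K * ‖y - z‖ + K * ‖x - y‖ := by
      rw [← mul_add]
      exact mul_le_mul_of_nonneg_left h2 hK
    linarith
  refine ⟨fun x => ⨅ y, (ψ y + K * ‖x - y‖), ?_, ?_, ?_, ?_⟩
  · intro x i
    refine (Function.Surjective.iInf_congr (fun y => y + Pi.single i (1 : ℝ))
      (Equiv.addRight (Pi.single i (1 : ℝ) : Vec d)).surjective (fun y => ?_)).symm
    rw [hper y i, add_sub_add_right_eq_sub]
  · intro x
    rw [abs_le]
    exact ⟨le_ciInf (hlow x), (hle x).trans (abs_le.1 (hA x)).2⟩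
  · intro x y
    simp only
    rw [abs_le]
    have h1 := hlip x y
    have h2 := hlip y x
    rw [norm_sub_rev y x] at h2
    constructor <;> linarith
  · intro x
    simp only
    rw [abs_le]
    have h1 := hle x
    have h2 := hge x
    constructor <;> linarith

end Pool.Agent.H15.OB
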