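import Pool.Agent.H15.OB.Bas

/-!
# Module Mix: phase mixing

For fixed `x` let `G v = χ v * F x v`. For `z ∈ [0,1]^d`: `∫ G(v) ψ(x + L v) dv = ∫ G(v - z/L) ψ(x + L v - z) dv` (translation). Average over `z`
(measure `muD d`, Fubini) and compare with `∫ G(v) ∫ ψ(x + L v - z) dmuD(z) dv = ∫ G ∫ ψ dmuD` (`ψ` periodic):
the difference is `≤ A sup_z ∫ |G(v - z/L) - G(v)| dv`, and `|G(v-z/L) - G(v)| ≤ A |F(v-z/L) - F(v)| + A len(z/L) F(v)`: `l1_md`
(with `x = y`, `‖z/L‖ ≤ 1/L`) and the decay. Then integrate over `x`.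
-/

set_option autoImplicit false

open MeasureTheory Set Filter Topology Pool.Agent.H25.Kin Pool.Agent.H37.LT
open Pool.Agent.H15.AV (UNice TSol pair)
open Pool.Agent.H48.CV (EqM)
open Pool.Agent.H48.NE (mx)
open Pool.Agent.H48.PI (Hs)

namespace Pool.Agent.H15.OB

variable {d : ℕ}

private lemma Mix_len (z : Vec d) : len z ≤ Real.sqrt d * ‖z‖ := by
  unfold len
  calc Real.sqrt (nsq z) ≤ Real.sqrt (d * ‖z‖ ^ 2) := Real.sqrt_le_sqrt (sq_le z)
    _ = Real.sqrt d * ‖z‖ := by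
      rw [Real.sqrt_mul (Nat.cast_nonneg d), Real.sqrt_sq (norm_nonneg z)]

private lemma Mix_real : (muD d).real univ = 1 := by
  rw [measureReal_def, Pool.Agent.H48.PL.muD_univ]
  simp

private lemma Mix_F {Cl : ℕ → ℝ} {m : ℝ} {r : ℝ → ℝ} {F : Vec d → Vec d → ℝ} (h : SB Cl m r F)
    (x v : Vec d) : |F x v| ≤ |Cl (d + 1)| * wt d v := by
  rw [abs_of_nonneg (h.nn x v)]
  unfold wt
  rw [← div_eq_mul_inv, le_div_iff₀ (pow_pos (w_pos v) _), mul_comm]
  exact (h.dec (d + 1) x v).trans (le_abs_self _)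

private lemma Mix_slice {Cl : ℕ → ℝ} {m : ℝ} {r : ℝ → ℝ} {F : Vec d → Vec d → ℝ}
    (h : SB Cl m r F) {A : ℝ} {χ : Vec d → ℝ} (hχ : TF A χ) {ψ : Vec d → ℝ} (hc : Continuous ψ)
    (hp : Per ψ) (hb : ∀ x, |ψ x| ≤ A) {L ρ ε₁ : ℝ} (hL : 0 < L) (hLρ : L⁻¹ ≤ ρ) (x : Vec d)
    (h1 : ∀ z : Vec d, ‖z‖ ≤ ρ → ∫ v, |F x (v + z) - F x v| ≤ ε₁) :
    |(∫ v, χ v * ψ (x + L • v) * F x v) - (∫ v, χ v * F x v) * ∫ y, ψ y ∂(muD d)| ≤
      A * ε₁ * A + A * (Real.sqrt d * L⁻¹) * (|Cl (d + 1)| * ∫ v, wt d v) * A := by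
  have hA : 0 ≤ A := (abs_nonneg _).trans (hχ.bd 0)
  have cχ : Continuous χ := TF_cont hχ
  have cF : Continuous fun v => F x v := h.cont.comp (by fun_prop : Continuous fun v => (x, v))
  have bG : ∀ v, |χ v * F x v| ≤ A * |Cl (d + 1)| * wt d v := fun v => by
    rw [abs_mul, mul_assoc]
    exact mul_le_mul (hχ.bd v) (Mix_F h x v) (abs_nonneg _) hA
  have bGψ : ∀ v y, |χ v * F x v * ψ y| ≤ A * |Cl (d + 1)| * A * wt d v := fun v y => by
    rw [abs_mul]
    calc |χ v * F x v| * |ψ y| ≤ (A * |Cl (d + 1)| * wt d v) * A :=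
          mul_le_mul (bG v) (hb y) (abs_nonneg _) ((abs_nonneg _).trans (bG v))
      _ = A * |Cl (d + 1)| * A * wt d v := by ring
  -- the function of two variables
  have cΦ : Continuous fun q : Vec d × Vec d => χ q.1 * F x q.1 * ψ (x + L • q.1 + q.2) := by
    have c1 : Continuous fun q : Vec d × Vec d => F x q.1 := cF.comp continuous_fst
    have c2 : Continuous fun q : Vec d × Vec d => χ q.1 := cχ.comp continuous_fst
    exact (c2.mul c1).mul (hc.comp (by fun_prop))
  have iΦ : Integrable (fun q : Vec d × Vec d => χ q.1 * F x q.1 * ψ (x + L • q.1 + q.2)) (nu d) :=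
    integrable_nu cΦ.aestronglyMeasurable fun q => bGψ q.1 _
  have e1 : ∫ z, (∫ v, χ v * F x v * ψ (x + L • v + z)) ∂(muD d) =
      (∫ v, χ v * F x v) * ∫ y, ψ y ∂(muD d) := by
    have a1 := integral_prod_symm _ iΦ
    have a2 := integral_prod _ iΦ
    rw [a1] at a2
    simp only at a2
    rw [a2, ← integral_mul_const]
    congr 1
    funext v
    rw [integral_const_mul]
    congr 1
    have a3 := hp.integral (x + L • v)
    unfold muD
    rw [← a3]
    congr 1
    funext z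
    rw [add_comm z]
  -- the difference for fixed `z`
  have e2 : ∀ z : Vec d, ‖z‖ ≤ 1 → |(∫ v, χ v * ψ (x + L • v) * F x v) -
      ∫ v, χ v * F x v * ψ (x + L • v + z)| ≤
      A * ε₁ * A + A * (Real.sqrt d * L⁻¹) * (|Cl (d + 1)| * ∫ v, wt d v) * A := by
    intro z hz
    have hz' : ‖L⁻¹ • z‖ ≤ L⁻¹ := by
      rw [norm_smul, Real.norm_eq_abs, abs_of_pos (inv_pos.2 hL)]
      exact mul_le_of_le_one_right (inv_pos.2 hL).le hz
    have a1 : (∫ v, χ v * ψ (x + L • v) * F x v) =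
        ∫ v, χ (v + L⁻¹ • z) * F x (v + L⁻¹ • z) * ψ (x + L • v + z) := by
      rw [← integral_add_right_eq_self (fun v => χ v * ψ (x + L • v) * F x v) (L⁻¹ • z)]
      congr 1
      funext v
      have : x + L • (v + L⁻¹ • z) = x + L • v + z := by
        rw [smul_add, smul_smul, mul_inv_cancel₀ hL.ne', one_smul, add_assoc]
      rw [this]
      ring
    have c1 : Continuous fun v => χ v * F x v * ψ (x + L • v + z) :=
      (cχ.mul cF).mul (hc.comp (by fun_prop))
    have i1 : Integrable fun v => χ v * F x v * ψ (x + L • v + z) :=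
      (integrable_wt.const_mul (A * |Cl (d + 1)| * A)).mono' c1.aestronglyMeasurable
        (Eventually.of_forall fun v => by rw [Real.norm_eq_abs]; exact bGψ v _)
    have i0 : Integrable fun v => F x v :=
      (integrable_wt.const_mul |Cl (d + 1)|).mono' cF.aestronglyMeasurable
        (Eventually.of_forall fun v => by rw [Real.norm_eq_abs]; exact Mix_F h x v)
    have i0' : Integrable fun v => F x (v + L⁻¹ • z) := i0.comp_add_right _
    have iG : Integrable fun v => χ v * ψ (x + L • v) * F x v := by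
      have c2 : Continuous fun v => χ v * ψ (x + L • v) * F x v :=
        (cχ.mul (hc.comp (by fun_prop))).mul cF
      refine (integrable_wt.const_mul (A * |Cl (d + 1)| * A)).mono' c2.aestronglyMeasurable
        (Eventually.of_forall fun v => ?_)
      rw [Real.norm_eq_abs]
      have := bGψ v (x + L • v)
      rwa [mul_right_comm] at this
    have i2 : Integrable fun v => χ (v + L⁻¹ • z) * F x (v + L⁻¹ • z) * ψ (x + L • v + z) := by
      have := iG.comp_add_right (L⁻¹ • z)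
      refine this.congr (Eventually.of_forall fun v => ?_)
      have e : x + L • (v + L⁻¹ • z) = x + L • v + z := by
        rw [smul_add, smul_smul, mul_inv_cancel₀ hL.ne', one_smul, add_assoc]
      simp only [e]
      ring
    rw [a1, ← integral_sub i2 i1]
    have k1 : Integrable fun v => A * |F x (v + L⁻¹ • z) - F x v| :=
      ((i0'.sub i0).abs).const_mul A
    have k2 : Integrable fun v => A * (Real.sqrt d * L⁻¹) * (|Cl (d + 1)| * wt d v) :=
      (integrable_wt.const_mul |Cl (d + 1)|).const_mul _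
    have iW : Integrable fun v => (A * |F x (v + L⁻¹ • z) - F x v| +
        A * (Real.sqrt d * L⁻¹) * (|Cl (d + 1)| * wt d v)) * A := (k1.add k2).mul_const A
    have a2 : |∫ v, (χ (v + L⁻¹ • z) * F x (v + L⁻¹ • z) * ψ (x + L • v + z) -
        χ v * F x v * ψ (x + L • v + z))| ≤ ∫ v, (A * |F x (v + L⁻¹ • z) - F x v| +
        A * (Real.sqrt d * L⁻¹) * (|Cl (d + 1)| * wt d v)) * A := by
      rw [← Real.norm_eq_abs]
      refine norm_integral_le_of_norm_le iW (Eventually.of_forall fun v => ?_)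
      rw [Real.norm_eq_abs, ← sub_mul, abs_mul]
      refine mul_le_mul ?_ (hb _) (abs_nonneg _) ?_
      · have e : χ (v + L⁻¹ • z) * F x (v + L⁻¹ • z) - χ v * F x v =
            χ (v + L⁻¹ • z) * (F x (v + L⁻¹ • z) - F x v) + (χ (v + L⁻¹ • z) - χ v) * F x v := by
          ring
        rw [e]
        refine (abs_add_le _ _).trans (add_le_add ?_ ?_)
        · rw [abs_mul]
          exact mul_le_mul_of_nonneg_right (hχ.bd _) (abs_nonneg _)
        · rw [abs_mul]
          refine mul_le_mul ?_ (Mix_F h x v) (abs_nonneg _) ?_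
          · refine (hχ.lip _ _).trans ?_
            rw [add_sub_cancel_left]
            exact mul_le_mul_of_nonneg_left ((Mix_len _).trans
              (mul_le_mul_of_nonneg_left hz' (Real.sqrt_nonneg _))) hA
          · positivity
      · have := wt_nonneg (d := d) v
        positivity
    refine a2.trans ?_
    rw [integral_mul_const, integral_add k1 k2, integral_const_mul,
      integral_const_mul, integral_const_mul, add_mul]
    have a3 := h1 (L⁻¹ • z) (hz'.trans hLρ)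
    have a4 : A * (∫ v, |F x (v + L⁻¹ • z) - F x v|) * A ≤ A * ε₁ * A :=
      mul_le_mul_of_nonneg_right (mul_le_mul_of_nonneg_left a3 hA) hA
    exact add_le_add a4 le_rfl
  -- average
  have iJ : Integrable (fun z => ∫ v, χ v * F x v * ψ (x + L • v + z)) (muD d) :=
    iΦ.integral_prod_right
  rw [← e1]
  have e3 : (∫ v, χ v * ψ (x + L • v) * F x v) =
      ∫ _z, (∫ v, χ v * ψ (x + L • v) * F x v) ∂(muD d) := by
    rw [integral_const, Mix_real, one_smul]
  rw [e3, ← integral_sub (integrable_const _) iJ, ← Real.norm_eq_abs]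
  have e4 := norm_integral_le_of_norm_le_const (μ := muD d)
    (f := fun z => (∫ v, χ v * ψ (x + L • v) * F x v) - ∫ v, χ v * F x v * ψ (x + L • v + z))
    (C := A * ε₁ * A + A * (Real.sqrt d * L⁻¹) * (|Cl (d + 1)| * ∫ v, wt d v) * A) (by
      unfold muD
      filter_upwards [ae_restrict_mem measurableSet_Icc] with z hz
      rw [Real.norm_eq_abs]
      refine e2 z ?_
      rw [pi_norm_le_iff_of_nonneg zero_le_one]
      intro i
      rw [Real.norm_eq_abs, abs_le]
      have h3 := hz.1 i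
      have h4 := hz.2 i
      simp only [Pi.zero_apply, Pi.one_apply] at h3 h4
      constructor <;> linarith)
  rwa [Mix_real, mul_one] at e4

theorem mix (Cl : ℕ → ℝ) (r : ℝ → ℝ) (A : ℝ) {ε : ℝ} (hε : 0 < ε) : ∃ L : ℝ, 1 ≤ L ∧
    ∀ (m : ℝ) (F : Vec d → Vec d → ℝ), SB Cl m r F → ∀ χ : Vec d → ℝ, TF A χ →
    ∀ ψ : Vec d → ℝ, Continuous ψ → Per ψ → (∀ x, |ψ x| ≤ A) →
    |(∫ q, χ q.1 * ψ (q.2 + L • q.1) * F q.2 q.1 ∂(nu d)) -
      (∫ q, χ q.1 * F q.2 q.1 ∂(nu d)) * ∫ x, ψ x ∂(muD d)| ≤ ε := by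
  have hε1 : 0 < ε / (2 * (A ^ 2 + 1)) := by positivity
  obtain ⟨ρ, hρ, hρ1⟩ := l1_md (d := d) Cl r hε1
  have hW : 0 ≤ ∫ v, wt d v := integral_nonneg fun v => wt_nonneg v
  set S : ℝ := A ^ 2 * Real.sqrt d * (|Cl (d + 1)| * ∫ v, wt d v) with hS
  have hS0 : 0 ≤ S := by positivity
  set L : ℝ := 1 + ρ⁻¹ + 2 * S / ε with hLdef
  have hL1 : 1 ≤ L := by
    have : 0 ≤ ρ⁻¹ := (inv_pos.2 hρ).le
    have : 0 ≤ 2 * S / ε := by positivity
    linarith
  have hL0 : 0 < L := by linarith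
  have hLρ : L⁻¹ ≤ ρ := by
    rw [inv_le_comm₀ hL0 hρ]
    have : 0 ≤ 2 * S / ε := by positivity
    linarith
  have hLS : S * L⁻¹ ≤ ε / 2 := by
    rw [← div_eq_mul_inv, div_le_iff₀ hL0]
    have h1 : ε / 2 * (2 * S / ε) = S := by field_simp
    have h2 : ε / 2 * (2 * S / ε) ≤ ε / 2 * L := by
      refine mul_le_mul_of_nonneg_left ?_ (by positivity)
      have : 0 ≤ ρ⁻¹ := (inv_pos.2 hρ).le
      linarith
    linarith
  have hAε : A * (ε / (2 * (A ^ 2 + 1))) * A ≤ ε / 2 := by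
    have h1 : A * (ε / (2 * (A ^ 2 + 1))) * A = ε / 2 * (A ^ 2 / (A ^ 2 + 1)) := by
      field_simp
    rw [h1]
    refine mul_le_of_le_one_right (by positivity) ?_
    rw [div_le_one (by positivity)]
    linarith
  refine ⟨L, hL1, fun m F hF χ hχ ψ hc hp hb => ?_⟩
  have hA : 0 ≤ A := (abs_nonneg _).trans (hχ.bd 0)
  have cχ : Continuous χ := TF_cont hχ
  have cF' : Continuous fun q : Vec d × Vec d => F q.2 q.1 :=
    hF.cont.comp (by fun_prop : Continuous fun q : Vec d × Vec d => (q.2, q.1))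
  have c2 : Continuous fun q : Vec d × Vec d => χ q.1 * F q.2 q.1 :=
    (cχ.comp continuous_fst).mul cF'
  have c1 : Continuous fun q : Vec d × Vec d => χ q.1 * ψ (q.2 + L • q.1) * F q.2 q.1 :=
    ((cχ.comp continuous_fst).mul (hc.comp (by fun_prop))).mul cF'
  have b2 : ∀ q : Vec d × Vec d, |χ q.1 * F q.2 q.1| ≤ A * |Cl (d + 1)| * wt d q.1 := fun q => by
    rw [abs_mul, mul_assoc]
    exact mul_le_mul (hχ.bd _) (Mix_F hF _ _) (abs_nonneg _) hA
  have b1 : ∀ q : Vec d × Vec d, |χ q.1 * ψ (q.2 + L • q.1) * F q.2 q.1| ≤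
      A * A * |Cl (d + 1)| * wt d q.1 := fun q => by
    rw [abs_mul, abs_mul, mul_assoc (A * A)]
    exact mul_le_mul (mul_le_mul (hχ.bd _) (hb _) (abs_nonneg _) hA) (Mix_F hF _ _)
      (abs_nonneg _) (mul_nonneg hA hA)
  have i1 := integrable_nu c1.aestronglyMeasurable b1
  have i2 := integrable_nu c2.aestronglyMeasurable b2
  have e1 : (∫ q, χ q.1 * ψ (q.2 + L • q.1) * F q.2 q.1 ∂(nu d)) =
      ∫ x, (∫ v, χ v * ψ (x + L • v) * F x v) ∂(muD d) := integral_prod_symm _ i1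
  have e2 : (∫ q, χ q.1 * F q.2 q.1 ∂(nu d)) = ∫ x, (∫ v, χ v * F x v) ∂(muD d) :=
    integral_prod_symm _ i2
  have j1 : Integrable (fun x => ∫ v, χ v * ψ (x + L • v) * F x v) (muD d) :=
    i1.integral_prod_right
  have j2 : Integrable (fun x => (∫ v, χ v * F x v) * ∫ x, ψ x ∂(muD d)) (muD d) :=
    i2.integral_prod_right.mul_const _
  rw [e1, e2, ← integral_mul_const, ← integral_sub j1 j2, ← Real.norm_eq_abs]
  have key := norm_integral_le_of_norm_le_const (μ := muD d)
    (f := fun x => (∫ v, χ v * ψ (x + L • v) * F x v) -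
      (∫ v, χ v * F x v) * ∫ x, ψ x ∂(muD d))
    (C := ε) (Eventually.of_forall fun x => by
      rw [Real.norm_eq_abs]
      refine (Mix_slice hF hχ hc hp hb hL0 hLρ x (fun z hz => hρ1 m F hF x x z
        (by rw [sub_self, norm_zero]; exact hρ.le) hz)).trans ?_
      have h3 : A * (Real.sqrt d * L⁻¹) * (|Cl (d + 1)| * ∫ v, wt d v) * A = S * L⁻¹ := by
        rw [hS]; ring
      rw [h3]
      linarith)
  rwa [Mix_real, mul_one] at key

end Pool.Agent.H15.OB
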