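import Pool.Agent.H15.OB.TrF
import Pool.Agent.H15.AV.SlcB

/-!
# Module Src: the source tested with `χ(v) ψ(x + σ v)`

For fixed `x` the test function `v ↦ χ v * ψ (x + σ • v)` is `TF (A² + |A K'| L)`; `DisTh.err` (with `ε/2`; `η = ε/2`), where `Cl'` comes from
`Pool.Agent.H15.AV.sol_unice hf one_pos hT₂` (times in `[1,T₂]`); then integrate over `x` (`nu_integral`, `DisTh.int`, total mass of `muD d` is `1`).
Integrability of `χ q.1 * ψ (q.2 + σ • q.1) * Q (f τ q.2) q.1` over `nu d`: continuity and decay as in `TSol.pairS_cont` (H15/AV/Tr) for `tsol_self hf`,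
with the test function `φ(v,y) = χ v * ψ (y + (σ + τ) • v)`: `integrable_nu`.
-/

set_option autoImplicit false

open MeasureTheory Set Filter Topology Pool.Agent.H25.Kin Pool.Agent.H37.LT
open Pool.Agent.H15.AV (UNice TSol pair)
open Pool.Agent.H48.CV (EqM)
open Pool.Agent.H48.NE (mx)
open Pool.Agent.H48.PI (Hs)

namespace Pool.Agent.H15.OB

variable {d : ℕ} {Q : (Vec d → ℝ) → Vec d → ℝ} {D : ℝ → (Vec d → ℝ) → ℝ}

private theorem Src_mu_univ : (muD d).real univ = 1 := by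
  unfold muD
  rw [measureReal_def, Measure.restrict_apply_univ, Real.volume_Icc_pi]
  simp

/-- the source is continuous in `(x, v)` -/
private theorem Src_cont_S {T : ℝ} {S h : ℝ → Vec d → Vec d → ℝ} (H : TSol T S h) {s : ℝ}
    (hs : s ∈ Ioo 0 T) : Continuous fun q : Vec d × Vec d => S s q.1 q.2 := by
  have h1 : ContinuousOn (fderiv ℝ (unc h)) (Ioo 0 T ×ˢ univ) :=
    H.smooth.continuousOn_fderiv_of_isOpen (isOpen_Ioo.prod isOpen_univ) (by norm_num)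
  have h2 : ContinuousOn (fun p : ℝ × Vec d × Vec d => fderiv ℝ (unc h) p (1, p.2.2, 0))
      (Ioo 0 T ×ˢ univ) := h1.clm_apply (by fun_prop)
  have h3 : ContinuousOn (fun p : ℝ × Vec d × Vec d => S p.1 p.2.1 p.2.2) (Ioo 0 T ×ˢ univ) := by
    refine h2.congr fun p hp => ?_
    exact (H.solves p.1 hp.1 p.2.1 p.2.2).symm
  have h4 : Continuous fun q : Vec d × Vec d => (s, q.1, q.2) := by fun_prop
  exact h3.comp_continuous h4 fun q => ⟨hs, mem_univ _⟩

private theorem Src_norm_le_len (v : Vec d) : ‖v‖ ≤ len v := norm_le_len v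

private theorem Src_lip_cont {K' : ℝ} {ψ : Vec d → ℝ} (hL : ∀ x y, |ψ x - ψ y| ≤ K' * ‖x - y‖) :
    Continuous ψ := by
  refine (LipschitzWith.of_dist_le_mul (K := K'.toNNReal) fun x y => ?_).continuous
  rw [Real.dist_eq, dist_eq_norm]
  exact (hL x y).trans (mul_le_mul_of_nonneg_right (Real.le_coe_toNNReal K') (norm_nonneg _))

private theorem Src_tf {A K' L : ℝ} {χ ψ : Vec d → ℝ} (hχ : TF A χ) (hψ : ∀ x, |ψ x| ≤ A)
    (hL : ∀ x y, |ψ x - ψ y| ≤ K' * ‖x - y‖) {σ : ℝ} (hσ : σ ∈ Icc 0 L) (x : Vec d) :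
    TF (A ^ 2 + |A| * |K'| * |L|) fun v => χ v * ψ (x + σ • v) := by
  have hA : 0 ≤ A := (abs_nonneg _).trans (hψ 0)
  have hLL : σ ≤ |L| := hσ.2.trans (le_abs_self L)
  constructor
  · intro v
    rw [abs_mul]
    have h1 : |χ v| * |ψ (x + σ • v)| ≤ A * A :=
      mul_le_mul (hχ.bd v) (hψ _) (abs_nonneg _) hA
    have h2 : 0 ≤ |A| * |K'| * |L| := by positivity
    nlinarith [h1, h2]
  · intro v w
    have e1 : χ v * ψ (x + σ • v) - χ w * ψ (x + σ • w) =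
        (χ v - χ w) * ψ (x + σ • v) + χ w * (ψ (x + σ • v) - ψ (x + σ • w)) := by ring
    have hlen : 0 ≤ len (v - w) := (norm_nonneg _).trans (Src_norm_le_len _)
    have h1 : |(χ v - χ w) * ψ (x + σ • v)| ≤ A * len (v - w) * A := by
      rw [abs_mul]
      exact mul_le_mul (hχ.lip v w) (hψ _) (abs_nonneg _) (mul_nonneg hA hlen)
    have h2 : |ψ (x + σ • v) - ψ (x + σ • w)| ≤ |K'| * (|L| * len (v - w)) := by
      refine (hL _ _).trans ?_
      have e2 : x + σ • v - (x + σ • w) = σ • (v - w) := by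
        rw [add_sub_add_left_eq_sub, smul_sub]
      rw [e2, norm_smul, Real.norm_eq_abs, abs_of_nonneg hσ.1]
      have h3 : σ * ‖v - w‖ ≤ |L| * len (v - w) :=
        mul_le_mul hLL (Src_norm_le_len _) (norm_nonneg _) (abs_nonneg _)
      calc K' * (σ * ‖v - w‖) ≤ |K'| * (σ * ‖v - w‖) :=
            mul_le_mul_of_nonneg_right (le_abs_self _) (mul_nonneg hσ.1 (norm_nonneg _))
        _ ≤ |K'| * (|L| * len (v - w)) := mul_le_mul_of_nonneg_left h3 (abs_nonneg _)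
    have h4 : |χ w * (ψ (x + σ • v) - ψ (x + σ • w))| ≤ A * (|K'| * (|L| * len (v - w))) := by
      rw [abs_mul]
      exact mul_le_mul (hχ.bd w) h2 (abs_nonneg _) hA
    change |χ v * ψ (x + σ • v) - χ w * ψ (x + σ • w)| ≤ _
    rw [e1]
    refine (abs_add_le _ _).trans ?_
    rw [abs_of_nonneg hA]
    calc |(χ v - χ w) * ψ (x + σ • v)| + |χ w * (ψ (x + σ • v) - ψ (x + σ • w))| ≤
        A * len (v - w) * A + A * (|K'| * (|L| * len (v - w))) := add_le_add h1 h4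
      _ = (A ^ 2 + A * |K'| * |L|) * len (v - w) := by ring

theorem src_le (HD : DisTh d Q D) (Cl : ℕ → ℝ) (A K' L : ℝ) {ε : ℝ} (hε : 0 < ε) : ∃ K : ℝ, 0 ≤ K ∧
    ∀ (T : ℝ) (f : ℝ → Vec d → Vec d → ℝ), IsClassicalSol T (fun t x => Q (f t x)) f →
    (∀ t ∈ Ico 0 T, ∀ (N : ℕ) (x v : Vec d), (1 + ‖v‖) ^ N * f t x v ≤ Cl N) →
    ∀ T₂ : ℝ, 1 ≤ T₂ → T₂ < T → ∃ δ₀ > 0, δ₀ ≤ 1 ∧ ∀ δ ∈ Ioc (0 : ℝ) δ₀, ∀ τ ∈ Icc 1 T₂,
      0 ≤ K * (∫ x, D δ (f τ x) ∂(muD d)) + ε ∧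
      ∀ χ ψ : Vec d → ℝ, TF A χ → Per ψ → (∀ x, |ψ x| ≤ A) →
      (∀ x y, |ψ x - ψ y| ≤ K' * ‖x - y‖) → ∀ σ ∈ Icc 0 L,
      |∫ q, χ q.1 * ψ (q.2 + σ • q.1) * Q (f τ q.2) q.1 ∂(nu d)| ≤
        K * (∫ x, D δ (f τ x) ∂(muD d)) + ε := by
  obtain ⟨K, hK0, hK⟩ := HD.err Cl (A ^ 2 + |A| * |K'| * |L|) (ε / 2) (half_pos hε)
  refine ⟨K, hK0, fun T f hf hCl T₂ h1 h2 => ?_⟩
  obtain ⟨Cl', hCl'⟩ := Pool.Agent.H15.AV.sol_unice hf one_pos h2
  obtain ⟨δ₀, hδ₀, hδ⟩ := hK Cl' (ε / 2) (half_pos hε)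
  refine ⟨min δ₀ 1, lt_min hδ₀ one_pos, min_le_right _ _, fun δ hδm τ hτ => ?_⟩
  have hτT : τ < T := hτ.2.trans_lt h2
  have hτ0 : 0 < τ := one_pos.trans_le hτ.1
  have hτI : τ ∈ Ioo 0 T := ⟨hτ0, hτT⟩
  have hδ1 : δ ∈ Ioc (0 : ℝ) δ₀ := ⟨hδm.1, hδm.2.trans (min_le_left _ _)⟩
  have hδ2 : δ ∈ Ioc (0 : ℝ) 1 := ⟨hδm.1, hδm.2.trans (min_le_right _ _)⟩
  have key : ∀ (x : Vec d) (φ : Vec d → ℝ), TF (A ^ 2 + |A| * |K'| * |L|) φ →
      |∫ w, Q (f τ x) w * φ w| ≤ K * D δ (f τ x) + ε := by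
    intro x φ hφ
    have h3 := hδ δ hδ1 (f τ x) (hCl' τ hτ x) (fun N v => hCl τ ⟨hτ0.le, hτT⟩ N x v) φ hφ
    linarith
  have hint : Integrable (fun x => K * D δ (f τ x) + ε) (muD d) :=
    ((HD.int T f hf δ hδ2 τ hτI).const_mul K).add (integrable_const ε)
  have hval : ∫ x, (K * D δ (f τ x) + ε) ∂(muD d) = K * (∫ x, D δ (f τ x) ∂(muD d)) + ε := by
    rw [integral_add ((HD.int T f hf δ hδ2 τ hτI).const_mul K) (integrable_const ε),
      integral_const_mul, integral_const, Src_mu_univ, smul_eq_mul, one_mul]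
  constructor
  · rw [← hval]
    refine integral_nonneg fun x => ?_
    have h0 : TF (A ^ 2 + |A| * |K'| * |L|) (fun _ : Vec d => (0 : ℝ)) := by
      have hp : 0 ≤ A ^ 2 + |A| * |K'| * |L| := by positivity
      refine ⟨fun v => by simpa using hp, fun v w => ?_⟩
      rw [sub_self, abs_zero]
      exact mul_nonneg hp ((norm_nonneg _).trans (Src_norm_le_len _))
    exact (abs_nonneg _).trans (key x _ h0)
  · intro χ ψ hχ hψp hψA hψL σ hσ
    have hA : 0 ≤ A := (abs_nonneg _).trans (hψA 0)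
    have H := tsol_self hf
    obtain ⟨C, hC⟩ := H.decS 1 one_pos T₂ h2
    have hχc : Continuous χ := TF_cont hχ
    have hψc : Continuous ψ := Src_lip_cont hψL
    have hGi : Integrable (fun q : Vec d × Vec d =>
        χ q.1 * ψ (q.2 + σ • q.1) * Q (f τ q.2) q.1) (nu d) := by
      have c1 : Continuous fun q : Vec d × Vec d => Q (f τ q.2) q.1 :=
        (Src_cont_S H hτI).comp (by fun_prop : Continuous fun q : Vec d × Vec d => (q.2, q.1))
      have c2 : Continuous fun q : Vec d × Vec d => χ q.1 * ψ (q.2 + σ • q.1) :=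
        (hχc.comp continuous_fst).mul (hψc.comp (by fun_prop))
      refine integrable_nu (C := A * A * C) (c2.mul c1).aestronglyMeasurable fun q => ?_
      rw [abs_mul, abs_mul]
      calc |χ q.1| * |ψ (q.2 + σ • q.1)| * |Q (f τ q.2) q.1| ≤ A * A * (C * wt d q.1) :=
            mul_le_mul (mul_le_mul (hχ.bd _) (hψA _) (abs_nonneg _) hA) (hC τ hτ _ _)
              (abs_nonneg _) (mul_nonneg hA hA)
        _ = A * A * C * wt d q.1 := by ring
    rw [Pool.Agent.H15.AV.nu_integral hGi]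
    refine (abs_integral_le_integral_abs).trans ?_
    rw [← hval]
    refine integral_mono_of_nonneg (Eventually.of_forall fun x => abs_nonneg _) hint
      (Eventually.of_forall fun x => ?_)
    have h3 := key x _ (Src_tf hχ hψA hψL hσ x)
    have e : (∫ w, Q (f τ x) w * (χ w * ψ (x + σ • w))) =
        ∫ v, χ v * ψ (x + σ • v) * Q (f τ x) v :=
      integral_congr_ae (Eventually.of_forall fun w => mul_comm _ _)
    rw [e] at h3
    exact h3

end Pool.Agent.H15.OB
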