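import Pool.Agent.H15.OB.Var

/-!
# Module Tim: a time with small distance in `L¹` (cf. `l1_time`, H37/LT/Main)

`DisTh.slice` (`ε/8`): `K₁`; `md_le`: `R, K₂`; `var_le` with `A = 2 R²` and `ε₃`: `L, K₃`; `Hs_bd`: `CH`. `N` windows of length `L + 1` in `[1, 1 + N (L+1)]`; by `DisTh.drop`
and `DisTh.low` in one window `∫ (∫ D + η) ≤ (2 CH + 1 + ...)/N`; in its last part of length one some `t` with `∫ D δ (f t x) dx` at most this.
-/

set_option autoImplicit false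

open MeasureTheory Set Filter Topology Pool.Agent.H25.Kin Pool.Agent.H37.LT
open Pool.Agent.H15.AV (UNice TSol pair sol_unice nu_integral)
open Pool.Agent.H48.CV (EqM)
open Pool.Agent.H48.NE (mx)
open Pool.Agent.H48.PI (Hs)

namespace Pool.Agent.H15.OB

variable {d : ℕ} {Q : (Vec d → ℝ) → Vec d → ℝ} {D : ℝ → (Vec d → ℝ) → ℝ}

/-- the distance at a fixed time -/
private lemma tim_slice (HD : DisTh d Q D) {Cl : ℕ → ℝ} {a k : ℝ} (ha : 0 < a)
    (hk : 0 < k) {u : Vec d} {T : ℝ} {f : ℝ → Vec d → Vec d → ℝ}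
    (hf : IsClassicalSol T (fun t x => Q (f t x)) f) {τ : ℝ} (hτ : τ ∈ Ioo 0 T)
    (hdec : ∀ (N : ℕ) (x v : Vec d), (1 + ‖v‖) ^ N * f τ x v ≤ Cl N) {ε₁ K₁ η δ Y : ℝ}
    (hK : 0 ≤ K₁) (hδ : δ ∈ Ioc (0 : ℝ) 1)
    (h : ∀ x, ∫ v, |f τ x v - mx a k u v| ≤ ε₁ + K₁ * (D δ (f τ x) + η + md (f τ x) (mx a k u)))
    (hmd : ∫ x, md (f τ x) (mx a k u) ∂(muD d) ≤ Y) :
    ∫ q, |f τ q.2 q.1 - mx a k u q.1| ∂(nu d) ≤
      ε₁ + K₁ * ((∫ x, D δ (f τ x) ∂(muD d)) + η + Y) := by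
  have hτ' : τ ∈ Ico 0 T := ⟨hτ.1.le, hτ.2⟩
  have hcf : Continuous fun q : Vec d × Vec d => f τ q.1 q.2 := hf.cont_slice hτ'
  have hn : Pool.Agent.H25.Kin.Nice (mx a k u) := Pool.Agent.H48.NE.mx_nice ha hk u
  obtain ⟨C₂, hC₂⟩ := hn.rd (d + 1)
  have hwt : ∀ v : Vec d, |mx a k u v| ≤ C₂ * wt d v := by
    intro v
    have h2 : 0 < (1 + ‖v‖) ^ (d + 1) := pow_pos (w_pos v) _
    have h1 := hC₂ v
    unfold wt
    rw [← div_eq_mul_inv, le_div_iff₀ h2, mul_comm]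
    exact h1
  have hwf : ∀ x v : Vec d, |f τ x v| ≤ Cl (d + 1) * wt d v := by
    intro x v
    have h2 : 0 < (1 + ‖v‖) ^ (d + 1) := pow_pos (w_pos v) _
    have h1 := hdec (d + 1) x v
    rw [abs_of_nonneg (hf.nonneg τ hτ' x v)]
    unfold wt
    rw [← div_eq_mul_inv, le_div_iff₀ h2, mul_comm]
    exact h1
  have hcont : Continuous fun q : Vec d × Vec d => |f τ q.2 q.1 - mx a k u q.1| :=
    ((hcf.comp (by fun_prop : Continuous fun q : Vec d × Vec d => (q.2, q.1))).sub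
      (hn.cont.comp continuous_fst)).abs
  have hint : Integrable (fun q : Vec d × Vec d => |f τ q.2 q.1 - mx a k u q.1|) (nu d) := by
    refine integrable_nu (C := Cl (d + 1) + C₂) hcont.aestronglyMeasurable fun q => ?_
    rw [abs_abs]
    refine (abs_sub _ _).trans ?_
    rw [add_mul]
    exact add_le_add (hwf _ _) (hwt _)
  rw [nu_integral hint]
  have i1 : Integrable (fun x => ∫ v, |f τ x v - mx a k u v|) (muD d) := by
    have := hint
    unfold nu at this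
    exact this.integral_prod_right
  have i2 := HD.int T f hf δ hδ τ hτ
  have i3 := md_int ha hk u hcf (fun x v => hf.nonneg τ hτ' x v) hdec
  have hm1 : (muD d).real univ = 1 := by
    unfold Measure.real
    rw [Pool.Agent.H48.PL.muD_univ]
    rfl
  have i5 : Integrable (fun x => D δ (f τ x) + η) (muD d) := i2.add (integrable_const _)
  have i6 : Integrable (fun x => D δ (f τ x) + η + md (f τ x) (mx a k u)) (muD d) := i5.add i3
  have i7 : Integrable (fun x => K₁ * (D δ (f τ x) + η + md (f τ x) (mx a k u))) (muD d) :=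
    i6.const_mul _
  have i4 : Integrable (fun x => ε₁ + K₁ * (D δ (f τ x) + η + md (f τ x) (mx a k u))) (muD d) :=
    (integrable_const _).add i7
  have h1 := integral_mono i1 i4 h
  refine h1.trans ?_
  have e1 : ∫ x, (ε₁ + K₁ * (D δ (f τ x) + η + md (f τ x) (mx a k u))) ∂(muD d) =
      ε₁ + K₁ * ((∫ x, D δ (f τ x) ∂(muD d)) + η + ∫ x, md (f τ x) (mx a k u) ∂(muD d)) := by
    rw [integral_add (integrable_const _) i7, integral_const_mul, integral_add i5 i3,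
      integral_add i2 (integrable_const _), integral_const, integral_const, hm1, one_smul, one_smul]
  rw [e1]
  have := mul_le_mul_of_nonneg_left hmd hK
  linarith

/-- the sum of the variances -/
private lemma tim_VV {R : ℝ} (hR : 1 ≤ R) {F : Vec d → Vec d → ℝ} {n : ℝ}
    (h : ∀ φ : Vec d → ℝ, TF (2 * R ^ 2) φ → Vr φ F ≤ n) :
    Vr (fun _ => 1) F + (∑ i, Vr (fc R i) F) + Vr (fe R) F ≤ ((d : ℝ) + 2) * n := by
  have h1 := h _ (TF_one hR)
  have h2 := h _ (TF_fe hR)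
  have h3 : ∑ i : Fin d, Vr (fc R i) F ≤ ∑ _i : Fin d, n :=
    Finset.sum_le_sum fun i _ => h _ (TF_fc hR i)
  rw [Finset.sum_const, Finset.card_univ, Fintype.card_fin, nsmul_eq_mul] at h3
  linarith

/-- one of `N` windows -/
private lemma tim_win (g : ℕ → ℝ) {N : ℕ} (hN : 0 < N) {C : ℝ} (h : g N - g 0 ≤ C) :
    ∃ j < N, g (j + 1) - g j ≤ C / N := by
  by_contra hcon
  push Not at hcon
  have hN' : (0 : ℝ) < N := by exact_mod_cast hN
  have h1 : ∑ _j ∈ Finset.range N, C / (N : ℝ) < ∑ j ∈ Finset.range N, (g (j + 1) - g j) :=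
    Finset.sum_lt_sum_of_nonempty (Finset.nonempty_range_iff.2 hN.ne') fun j hj =>
      hcon j (Finset.mem_range.1 hj)
  rw [Finset.sum_range_sub, Finset.sum_const, Finset.card_range, nsmul_eq_mul,
    mul_div_cancel₀ _ hN'.ne'] at h1
  linarith

theorem l1_exists (HD : DisTh d Q D) (Cl : ℕ → ℝ) {m : ℝ} (hm : 0 < m) (r : ℝ → ℝ) {a k : ℝ}
    (ha : 0 < a) (hk : 0 < k) (u : Vec d) {ε : ℝ} (hε : 0 < ε) : ∃ n : ℝ, 1 ≤ n ∧
    ∀ (T : ℝ) (f : ℝ → Vec d → Vec d → ℝ), IsClassicalSol T (fun t x => Q (f t x)) f →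
    (∀ t ∈ Ico 0 T, ∀ (N : ℕ) (x v : Vec d), (1 + ‖v‖) ^ N * f t x v ≤ Cl N) →
    (∀ t ∈ Ico 1 T, SB Cl m r (f t)) → EqM a k u (f 0) → n < T →
    ∃ t ∈ Icc 1 n, ∫ q, |f t q.2 q.1 - mx a k u q.1| ∂(nu d) ≤ ε := by
  obtain ⟨K₁, hK₁, hsl⟩ := HD.slice Cl m hm a k ha hk u (ε / 8) (by positivity)
  have hK1' : 0 < K₁ + 1 := by linarith
  obtain ⟨R, K₂, hR, hK₂, hmd⟩ := md_le Cl ha hk u (by positivity : 0 < ε / (8 * (K₁ + 1)))
  have hK2' : 0 < K₂ + 1 := by linarith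
  have hd2 : (0 : ℝ) < (d : ℝ) + 2 := by positivity
  obtain ⟨L, K₃, hL1, hK₃, hvar⟩ := var_le HD Cl r (2 * R ^ 2)
    (by positivity : 0 < ε / (8 * (K₁ + 1) * (K₂ + 1) * ((d : ℝ) + 2)))
  obtain ⟨CH, hCH, hHs⟩ := Hs_bd d Cl
  set C₄ : ℝ := K₁ + K₁ * K₂ * (((d : ℝ) + 2) * K₃) with hC₄
  have hC40 : 0 ≤ C₄ := by positivity
  obtain ⟨N, hN⟩ := exists_nat_gt (8 * C₄ * (2 * CH + 2) / ε)
  have hN0' : (0 : ℝ) < N := lt_of_le_of_lt (by positivity) hN
  have hN0 : 0 < N := by exact_mod_cast hN0'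
  have hN1 : (1 : ℝ) ≤ N := by exact_mod_cast hN0
  have hNε : C₄ * ((2 * CH + 2) / N) ≤ ε / 8 := by
    rw [div_lt_iff₀ hε] at hN
    rw [mul_div_assoc', div_le_iff₀ hN0']
    linarith
  have hL2 : (0 : ℝ) < L + 1 := by linarith
  set n : ℝ := 1 + N * (L + 1) with hn
  have hnL : 1 + (L + 1) ≤ n := by
    rw [hn]
    nlinarith
  have hn1 : 1 < n := by linarith
  refine ⟨n, hn1.le, fun T f hf hdec hSB h0 hnT => ?_⟩
  obtain ⟨Cl', hCl'⟩ := sol_unice hf one_pos hnT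
  obtain ⟨δa, hδa, hsl'⟩ := hsl Cl' (ε / (8 * (K₁ + 1))) (by positivity)
  obtain ⟨δb, hδb, hdr⟩ := HD.drop T f hf 1 n one_pos hn1 hnT 1 one_pos
  obtain ⟨δc, hδc, hlo⟩ := HD.low Cl' (1 / (N * (L + 1))) (by positivity)
  obtain ⟨δe, hδe, hva⟩ := hvar m T f hf hdec hSB n (by linarith) hnT
  set δ : ℝ := min (min (min δa δb) (min δc δe)) 1 with hδ
  have hδ0 : 0 < δ := lt_min (lt_min (lt_min hδa hδb) (lt_min hδc hδe)) one_pos
  have hδ1 : δ ≤ 1 := min_le_right _ _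
  have hda : δ ≤ δa := (min_le_left _ _).trans ((min_le_left _ _).trans (min_le_left _ _))
  have hdb : δ ≤ δb := (min_le_left _ _).trans ((min_le_left _ _).trans (min_le_right _ _))
  have hdc : δ ≤ δc := (min_le_left _ _).trans ((min_le_right _ _).trans (min_le_left _ _))
  have hde : δ ≤ δe := (min_le_left _ _).trans ((min_le_right _ _).trans (min_le_right _ _))
  set η : ℝ := ε / (8 * (K₁ + 1)) with hη
  have hη0 : 0 < η := by positivity
  have hKη : K₁ * η ≤ ε / 8 := by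
    have h1 : (K₁ + 1) * η = ε / 8 := by
      rw [hη]
      field_simp
    nlinarith
  set η' : ℝ := 1 / (N * (L + 1)) with hη'
  have hη'0 : 0 < η' := by positivity
  have hη'n : η' * (n - 1) = 1 := by
    rw [hη', hn]
    field_simp
    ring
  set DD : ℝ → ℝ := fun τ => ∫ x, D δ (f τ x) ∂(muD d) with hDD
  have hin : ∀ τ ∈ Icc 1 n, τ ∈ Ioo 0 T := fun τ hτ =>
    ⟨one_pos.trans_le hτ.1, hτ.2.trans_lt hnT⟩
  have hm1 : (muD d).real univ = 1 := by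
    unfold Measure.real
    rw [Pool.Agent.H48.PL.muD_univ]
    rfl
  have hDD0 : ∀ τ ∈ Icc 1 n, 0 ≤ DD τ + η' := by
    intro τ hτ
    have h1 := integral_mono (integrable_const (-η')) (HD.int T f hf δ ⟨hδ0, hδ1⟩ τ (hin τ hτ))
      (fun x => hlo δ ⟨hδ0, hdc⟩ (f τ x) (hCl' τ hτ x))
    rw [integral_const, hm1, one_smul] at h1
    have h2 : DD τ = ∫ x, D δ (f τ x) ∂(muD d) := rfl
    rw [h2]
    linarith
  have hDc : ContinuousOn DD (Icc 1 n) := (HD.cont T f hf δ ⟨hδ0, hδ1⟩).mono hin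
  have hDi : ∀ p q : ℝ, p ∈ Icc 1 n → q ∈ Icc 1 n → IntervalIntegrable DD volume p q := by
    intro p q hp hq
    exact (hDc.mono (uIcc_subset_Icc hp hq)).intervalIntegrable
  have hDi' : ∀ p q : ℝ, p ∈ Icc 1 n → q ∈ Icc 1 n →
      IntervalIntegrable (fun τ => DD τ + η') volume p q := fun p q hp hq =>
    (hDi p q hp hq).add intervalIntegrable_const
  have h1n : (1 : ℝ) ∈ Icc 1 n := ⟨le_rfl, hn1.le⟩
  have hnn : n ∈ Icc 1 n := ⟨hn1.le, le_rfl⟩
  have htot : ∫ τ in (1 : ℝ)..n, (DD τ + η') ≤ 2 * CH + 2 := by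
    rw [intervalIntegral.integral_add (hDi 1 n h1n hnn) intervalIntegrable_const,
      intervalIntegral.integral_const, smul_eq_mul]
    have h1 := hdr δ ⟨hδ0, hdb⟩
    have hb : ∀ t ∈ Icc 1 n, |Hs (f t)| ≤ CH := fun t ht => by
      have ht1 := hin t ht
      have ht2 : t ∈ Ico 0 T := ⟨ht1.1.le, ht1.2⟩
      exact hHs (f t) (hf.cont_slice ht2) (fun x v => hf.nonneg t ht2 x v)
        (fun N x v => hdec t ht2 N x v)
    have h2 := (abs_le.1 (hb 1 h1n)).2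
    have h3 := (abs_le.1 (hb n hnn)).1
    unfold Hs at h2 h3
    have h4 : ∫ τ in (1 : ℝ)..n, DD τ = ∫ τ in (1 : ℝ)..n, (∫ x, D δ (f τ x) ∂(muD d)) := rfl
    rw [h4]
    linarith
  have hmem : ∀ j : ℕ, j ≤ N → 1 + (j : ℝ) * (L + 1) ∈ Icc 1 n := by
    intro j hj
    have h1 : (j : ℝ) ≤ N := by exact_mod_cast hj
    have h2 : (0 : ℝ) ≤ j := Nat.cast_nonneg j
    exact ⟨by nlinarith, by rw [hn]; nlinarith⟩
  obtain ⟨j, hjN, hj⟩ := tim_win (fun j : ℕ => ∫ τ in (1 : ℝ)..(1 + (j : ℝ) * (L + 1)), (DD τ + η'))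
    hN0 (C := 2 * CH + 2) (by
      simp only [Nat.cast_zero, zero_mul, add_zero, intervalIntegral.integral_same, sub_zero]
      exact htot)
  set s : ℝ := 1 + (j : ℝ) * (L + 1) with hs
  have hsm : s ∈ Icc 1 n := hmem j hjN.le
  have hem : s + (L + 1) ∈ Icc 1 n := by
    have := hmem (j + 1) hjN
    rw [Nat.cast_add, Nat.cast_one] at this
    have e : 1 + ((j : ℝ) + 1) * (L + 1) = s + (L + 1) := by rw [hs]; ring
    rwa [e] at this
  have hw : ∫ τ in s..(s + (L + 1)), (DD τ + η') ≤ (2 * CH + 2) / N := by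
    have e : 1 + (((j + 1 : ℕ) : ℝ)) * (L + 1) = s + (L + 1) := by
      rw [hs]
      push_cast
      ring
    simp only [e] at hj
    rw [intervalIntegral.integral_interval_sub_left (hDi' _ _ h1n hem) (hDi' _ _ h1n hsm)] at hj
    exact hj
  -- parts of the window
  have hpart : ∀ p q : ℝ, s ≤ p → p ≤ q → q ≤ s + (L + 1) →
      ∫ τ in p..q, DD τ ≤ (2 * CH + 2) / N := by
    intro p q hp hpq hq
    have hpm : p ∈ Icc 1 n := ⟨hsm.1.trans hp, (hpq.trans hq).trans hem.2⟩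
    have hqm : q ∈ Icc 1 n := ⟨hsm.1.trans (hp.trans hpq), hq.trans hem.2⟩
    have h1 : ∫ τ in p..q, DD τ ≤ ∫ τ in p..q, (DD τ + η') := by
      refine intervalIntegral.integral_mono_on hpq (hDi p q hpm hqm) (hDi' p q hpm hqm) fun τ _ => ?_
      linarith
    have h2 : ∫ τ in p..q, (DD τ + η') ≤ ∫ τ in s..(s + (L + 1)), (DD τ + η') := by
      refine intervalIntegral.integral_mono_interval hp hpq hq ?_ (hDi' _ _ hsm hem)
      refine (ae_restrict_iff' measurableSet_Ioc).2 (Eventually.of_forall fun τ hτ => ?_)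
      exact hDD0 τ ⟨hsm.1.trans hτ.1.le, hτ.2.trans hem.2⟩
    linarith
  by_contra hcon
  push Not at hcon
  have hY : ∀ τ ∈ Icc (s + L) (s + (L + 1)), ε ≤ (ε / 8 + K₁ * (η + (η + K₂ * (((d : ℝ) + 2) *
      (ε / (8 * (K₁ + 1) * (K₂ + 1) * ((d : ℝ) + 2)) + K₃ * ((2 * CH + 2) / N)))))) + K₁ * DD τ := by
    intro τ hτ
    have hτm : τ ∈ Icc 1 n := ⟨by linarith [hsm.1, hτ.1], hτ.2.trans hem.2⟩
    have hτ1 := hin τ hτm
    have hτ2 : τ ∈ Ico 0 T := ⟨hτ1.1.le, hτ1.2⟩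
    have hτ3 : τ ∈ Ico 1 T := ⟨hτm.1, hτ1.2⟩
    have hS := hSB τ hτ3
    have hV : Vr (fun _ => 1) (f τ) + (∑ i, Vr (fc R i) (f τ)) + Vr (fe R) (f τ) ≤
        ((d : ℝ) + 2) * (ε / (8 * (K₁ + 1) * (K₂ + 1) * ((d : ℝ) + 2)) +
          K₃ * ((2 * CH + 2) / N)) := by
      refine tim_VV hR fun φ hφ => ?_
      have h1 := hva δ ⟨hδ0, hde⟩ τ ⟨by linarith [hsm.1, hτ.1], hτm.2⟩ φ hφ
      have h2 := hpart (τ - L) τ (by linarith [hτ.1]) (by linarith) hτ.2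
      have h3 := mul_le_mul_of_nonneg_left h2 hK₃
      refine h1.trans ?_
      linarith
    have h1 := tim_slice HD ha hk hf hτ1 (hdec τ hτ2) (ε₁ := ε / 8) (K₁ := K₁) (η := η) (δ := δ)
      (Y := η + K₂ * (Vr (fun _ => 1) (f τ) + (∑ i, Vr (fc R i) (f τ)) + Vr (fe R) (f τ))) hK₁
      ⟨hδ0, hδ1⟩ (fun x => hsl' δ ⟨hδ0, hda⟩ (f τ x) (hCl' τ hτm x)
        (fun N v => hdec τ hτ2 N x v) (hS.mass x))
      (hmd (f τ) (hf.cont_slice hτ2) (fun x v => hf.nonneg τ hτ2 x v)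
        (fun N x v => hdec τ hτ2 N x v) (HD.inv T f hf a k u h0 τ hτ2))
    have h2 := (hcon τ hτm).le.trans h1
    have h3 := mul_le_mul_of_nonneg_left hV hK₂
    have h4 : K₁ * (DD τ + η + (η + K₂ * (Vr (fun _ => 1) (f τ) + (∑ i, Vr (fc R i) (f τ)) +
        Vr (fe R) (f τ)))) ≤ K₁ * (DD τ + η + (η + K₂ * (((d : ℝ) + 2) *
      (ε / (8 * (K₁ + 1) * (K₂ + 1) * ((d : ℝ) + 2)) + K₃ * ((2 * CH + 2) / N))))) :=
      mul_le_mul_of_nonneg_left (by linarith) hK₁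
    have h5 : ∫ x, D δ (f τ x) ∂(muD d) = DD τ := rfl
    rw [h5] at h2
    linarith
  have hle : s + L ≤ s + (L + 1) := by linarith
  have hsLm : s + L ∈ Icc 1 n := ⟨by linarith [hsm.1], hle.trans hem.2⟩
  have hint := intervalIntegral.integral_mono_on hle intervalIntegrable_const
    (intervalIntegrable_const.add ((hDi _ _ hsLm hem).const_mul K₁)) hY
  rw [intervalIntegral.integral_add intervalIntegrable_const ((hDi _ _ hsLm hem).const_mul K₁),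
    intervalIntegral.integral_const_mul, intervalIntegral.integral_const,
    intervalIntegral.integral_const, smul_eq_mul, smul_eq_mul] at hint
  have e1 : s + (L + 1) - (s + L) = 1 := by ring
  rw [e1, one_mul, one_mul] at hint
  have hlast := hpart (s + L) (s + (L + 1)) (by linarith) hle le_rfl
  have hb1 := mul_le_mul_of_nonneg_left hlast hK₁
  have hKK : K₁ * K₂ * (((d : ℝ) + 2) * (ε / (8 * (K₁ + 1) * (K₂ + 1) * ((d : ℝ) + 2)))) ≤
      ε / 8 := by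
    have h1 : (K₁ + 1) * (K₂ + 1) * (((d : ℝ) + 2) *
        (ε / (8 * (K₁ + 1) * (K₂ + 1) * ((d : ℝ) + 2)))) = ε / 8 := by
      field_simp
    have h2 : K₁ * K₂ ≤ (K₁ + 1) * (K₂ + 1) := by nlinarith
    have h3 : 0 ≤ ((d : ℝ) + 2) * (ε / (8 * (K₁ + 1) * (K₂ + 1) * ((d : ℝ) + 2))) := by positivity
    have := mul_le_mul_of_nonneg_right h2 h3
    linarith
  have e2 : ε / 8 + K₁ * (η + (η + K₂ * (((d : ℝ) + 2) *
      (ε / (8 * (K₁ + 1) * (K₂ + 1) * ((d : ℝ) + 2)) + K₃ * ((2 * CH + 2) / N))))) =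
      ε / 8 + 2 * (K₁ * η) + K₁ * K₂ * (((d : ℝ) + 2) *
        (ε / (8 * (K₁ + 1) * (K₂ + 1) * ((d : ℝ) + 2)))) +
        K₁ * K₂ * (((d : ℝ) + 2) * K₃) * ((2 * CH + 2) / N) := by ring
  have e3 : C₄ * ((2 * CH + 2) / N) = K₁ * ((2 * CH + 2) / N) +
      K₁ * K₂ * (((d : ℝ) + 2) * K₃) * ((2 * CH + 2) / N) := by
    rw [hC₄]
    ring
  rw [e2] at hint
  linarith

end Pool.Agent.H15.OB
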