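import Pool.Agent.H15.OB.Defs
import Pool.Agent.H15.AV.TrC

/-!
# Module TrF: a classical solution is a regular solution of the transport equation with source `Q (f t x)`

See `tsol_ren` (H15/AV/TrC) for the same with the renormalization; `dec` from `hf.decay` (`N = d+1`), `decS` from the decay of the
derivatives (see the private `TrC_decS` there).
-/

set_option autoImplicit false

open MeasureTheory Set Filter Topology Pool.Agent.H25.Kin Pool.Agent.H37.LT
open Pool.Agent.H15.AV (UNice TSol pair)
open Pool.Agent.H48.CV (EqM)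
open Pool.Agent.H48.NE (mx)
open Pool.Agent.H48.PI (Hs)

namespace Pool.Agent.H15.OB

variable {d : ℕ}

theorem tsol_self {T : ℝ} {Q : (Vec d → ℝ) → Vec d → ℝ} {f : ℝ → Vec d → Vec d → ℝ}
    (hf : IsClassicalSol T (fun t x => Q (f t x)) f) : TSol T (fun t x => Q (f t x)) f := by
  refine ⟨fun t ht x v i => hf.periodic t ht x v i, IsClassicalSol.cont hf, ?_, ?_, ?_, ?_⟩
  · exact (IsClassicalSol.smooth hf).of_le (by norm_num)
  · intro T₁ hT
    obtain ⟨C, -, hC⟩ := IsClassicalSol.f_le hf hT (d + 1)
    exact ⟨C, fun t ht x v => hC t ht x v⟩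
  · intro T₀ hT₀ T₁ hT
    obtain ⟨C, -, hC⟩ := IsClassicalSol.Q_le hf hT₀ hT (d + 1)
    exact ⟨C, fun t ht x v => hC t ht x v⟩
  · intro t ht x v
    exact IsClassicalSol.eqn hf t ht x v

end Pool.Agent.H15.OB
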