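import Pool.Agent.H15.OB.Src
import Pool.Agent.H15.OB.Mix
import Pool.Agent.H15.OB.Lip

/-!
# Module Var: the velocity averages are almost independent of `x` after a window with small entropy production

`s = t - L`, `ψ x = ∫ χ v * f t x v`, `ψ'` its Lipschitz approximation. `TSol.ftc` for `φ(v,y) = χ v * ψ' (y + t • v)`:
`∫ χ ψ' f(t) = ∫ χ(v) ψ'(x + L v) f(s) + ∫_s^t (source with σ = t - τ)`, `mix` at the time `s`, and `TSol.ftc` for `φ = χ` (`ψ = 1`).
-/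

set_option autoImplicit false

open MeasureTheory Set Filter Topology Pool.Agent.H25.Kin Pool.Agent.H37.LT
open Pool.Agent.H15.AV (UNice TSol pair)
open Pool.Agent.H48.CV (EqM)
open Pool.Agent.H48.NE (mx)
open Pool.Agent.H48.PI (Hs)
open Pool.Agent.H48.PL (muD_univ)

namespace Pool.Agent.H15.OB

variable {d : ℕ} {Q : (Vec d → ℝ) → Vec d → ℝ} {D : ℝ → (Vec d → ℝ) → ℝ}

private lemma var_wt {F : Vec d → ℝ} {C A : ℝ} {χ : Vec d → ℝ} (hχ : ∀ v, |χ v| ≤ A) (h0 : ∀ v, 0 ≤ F v)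
    (h : ∀ v, (1 + ‖v‖) ^ (d + 1) * F v ≤ C) (v : Vec d) : |χ v * F v| ≤ A * C * wt d v := by
  have hn := norm_nonneg v
  have hp : 0 < (1 + ‖v‖) ^ (d + 1) := by positivity
  have hA : 0 ≤ A := (abs_nonneg _).trans (hχ v)
  have h1 : F v ≤ C * wt d v := by
    unfold wt
    rw [← div_eq_mul_inv, le_div_iff₀ hp, mul_comm]
    exact h v
  rw [abs_mul, abs_of_nonneg (h0 v)]
  calc |χ v| * F v ≤ A * (C * wt d v) := mul_le_mul (hχ v) h1 (h0 v) hA
    _ = A * C * wt d v := by ring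

private lemma var_int {F : Vec d → ℝ} (hF : Continuous F) {C : ℝ} (h : ∀ v, |F v| ≤ C * wt d v) :
    Integrable F :=
  Integrable.mono' ((integrable_wt (d := d)).const_mul C) hF.aestronglyMeasurable
    (Eventually.of_forall fun v => by rw [Real.norm_eq_abs]; exact h v)

private lemma var_mono {A A' : ℝ} (h : A ≤ A') {χ : Vec d → ℝ} (hχ : TF A χ) : TF A' χ :=
  ⟨fun v => (hχ.bd v).trans h, fun v w => (hχ.lip v w).trans
    (mul_le_mul_of_nonneg_right h (len_nonneg _))⟩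

/-- difference of two velocity averages -/
private lemma var_diff {Cl : ℕ → ℝ} {m A : ℝ} {r : ℝ → ℝ} {F : Vec d → Vec d → ℝ} (hF : SB Cl m r F)
    {χ : Vec d → ℝ} (hχ : TF A χ) {ε ρ : ℝ}
    (h : ∀ x y z : Vec d, ‖x - y‖ ≤ ρ → ‖z‖ ≤ ρ → ∫ v, |F x (v + z) - F y v| ≤ ε) (hρ : 0 < ρ)
    (x y : Vec d) (hxy : ‖x - y‖ ≤ ρ) :
    |(∫ v, χ v * F x v) - ∫ v, χ v * F y v| ≤ A * ε := by
  have hA : 0 ≤ A := (abs_nonneg _).trans (hχ.bd 0)
  have hχc : Continuous χ := TF_cont hχ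
  have hc : ∀ x, Continuous (F x) := fun x => by
    have h1 : Continuous fun v : Vec d => ((x, v) : Vec d × Vec d) := by fun_prop
    exact hF.cont.comp h1
  have hi : ∀ x, Integrable fun v => χ v * F x v := fun x =>
    var_int (hχc.mul (hc x)) (var_wt hχ.bd (hF.nn x) fun v => hF.dec _ x v)
  have hj : ∀ x, Integrable (F x) := fun x => by
    have := var_int (hc x) (C := Cl (d + 1)) fun v => by
      have := var_wt (χ := fun _ => (1 : ℝ)) (A := 1) (fun _ => by simp) (hF.nn x)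
        (fun v => hF.dec (d + 1) x v) v
      simpa using this
    exact this
  rw [← integral_sub (hi x) (hi y)]
  have h1 : ∀ v, ‖χ v * F x v - χ v * F y v‖ ≤ A * |F x v - F y v| := fun v => by
    rw [Real.norm_eq_abs, ← mul_sub, abs_mul]
    exact mul_le_mul_of_nonneg_right (hχ.bd v) (abs_nonneg _)
  have h2 := norm_integral_le_of_norm_le (((hj x).sub (hj y)).abs.const_mul A)
    (Eventually.of_forall h1)
  rw [Real.norm_eq_abs, integral_const_mul] at h2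
  refine h2.trans (mul_le_mul_of_nonneg_left ?_ hA)
  have h3 := h x y 0 hxy (by rw [norm_zero]; exact hρ.le)
  simpa using h3

theorem var_le (HD : DisTh d Q D) (Cl : ℕ → ℝ) (r : ℝ → ℝ) (A : ℝ) {ε : ℝ} (hε : 0 < ε) :
    ∃ L K : ℝ, 1 ≤ L ∧ 0 ≤ K ∧ ∀ (m T : ℝ) (f : ℝ → Vec d → Vec d → ℝ),
    IsClassicalSol T (fun t x => Q (f t x)) f →
    (∀ t ∈ Ico 0 T, ∀ (N : ℕ) (x v : Vec d), (1 + ‖v‖) ^ N * f t x v ≤ Cl N) →
    (∀ t ∈ Ico 1 T, SB Cl m r (f t)) → ∀ T₂ : ℝ, 1 + L ≤ T₂ → T₂ < T →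
    ∃ δ₀ > 0, ∀ δ ∈ Ioc (0 : ℝ) δ₀, ∀ t ∈ Icc (1 + L) T₂, ∀ χ : Vec d → ℝ, TF A χ →
      Vr χ (f t) ≤ ε + K * ∫ τ in (t - L)..t, (∫ x, D δ (f τ x) ∂(muD d)) := by
  obtain ⟨M, hM0, hM⟩ := mass_le d Cl
  obtain ⟨A₀, hA₀⟩ : ∃ A₀ : ℝ, A₀ = max A 1 := ⟨_, rfl⟩
  have hA01 : 1 ≤ A₀ := by rw [hA₀]; exact le_max_right _ _
  have hAA : A ≤ A₀ := by rw [hA₀]; exact le_max_left _ _
  obtain ⟨A₁, hA₁⟩ : ∃ A₁ : ℝ, A₁ = A₀ * (M + 1) := ⟨_, rfl⟩
  have hA10 : A₀ ≤ A₁ := by rw [hA₁]; nlinarith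
  have hA11 : 1 ≤ A₁ := hA01.trans hA10
  have hA1M : A₀ * M ≤ A₁ := by rw [hA₁]; nlinarith
  obtain ⟨ε₂, hε₂⟩ : ∃ ε₂ : ℝ, ε₂ = ε / (8 * A₁) := ⟨_, rfl⟩
  have hε20 : 0 < ε₂ := by rw [hε₂]; positivity
  have hAε₂ : A₁ * ε₂ = ε / 8 := by
    rw [hε₂]
    field_simp
  obtain ⟨ρ, hρ, hl1⟩ := l1_md (d := d) Cl r (ε := ε₂ / A₀) (by positivity)
  obtain ⟨K', hK', hlip⟩ := lip_approx (d := d) hρ A₁ hε20
  obtain ⟨L, hL1, hmix⟩ := mix (d := d) Cl r A₁ (by positivity : 0 < ε / 8)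
  have hL0 : 0 < L := by linarith
  obtain ⟨ε₄, hε₄⟩ : ∃ ε₄ : ℝ, ε₄ = ε / (8 * (1 + A₁) * L) := ⟨_, rfl⟩
  have hε40 : 0 < ε₄ := by rw [hε₄]; positivity
  have hAε₄ : (1 + A₁) * (ε₄ * L) = ε / 8 := by
    rw [hε₄]
    field_simp
  obtain ⟨K, hK, hsrc⟩ := src_le HD Cl A₁ K' L hε40
  refine ⟨L, K * (1 + A₁), hL1, by positivity, fun m T f hf hdec hSB T₂ hT₂ hT₂T => ?_⟩
  obtain ⟨δ₀, hδ₀, hδ₀1, hsr⟩ := hsrc T f hf hdec T₂ (by linarith) hT₂T
  refine ⟨δ₀, hδ₀, fun δ hδ t ht χ hχA => ?_⟩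
  have hδ1 : δ ∈ Ioc (0 : ℝ) 1 := ⟨hδ.1, hδ.2.trans hδ₀1⟩
  have hχ0 : TF A₀ χ := var_mono hAA hχA
  have hχ : TF A₁ χ := var_mono hA10 hχ0
  have hχc : Continuous χ := TF_cont hχ
  obtain ⟨s, hs⟩ : ∃ s : ℝ, s = t - L := ⟨_, rfl⟩
  have hs1 : 1 ≤ s := by rw [hs]; linarith [ht.1]
  have hst : s ≤ t := by rw [hs]; linarith
  have htT : t < T := ht.2.trans_lt hT₂T
  have hsT : s < T := hst.trans_lt htT
  have hFt := hSB t ⟨hs1.trans hst, htT⟩
  have hFs := hSB s ⟨hs1, hsT⟩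
  have hct : ∀ x, Continuous (f t x) := fun x => by
    have h1 : Continuous fun v : Vec d => ((x, v) : Vec d × Vec d) := by fun_prop
    exact hFt.cont.comp h1
  -- the velocity average
  obtain ⟨ψ, hψ⟩ : ∃ ψ : Vec d → ℝ, ψ = fun x => ∫ v, χ v * f t x v := ⟨_, rfl⟩
  have hψi : ∀ x, Integrable fun v => χ v * f t x v := fun x =>
    var_int (hχc.mul (hct x)) (var_wt hχ0.bd (hFt.nn x) fun v => hFt.dec _ x v)
  have hψper : Per ψ := by
    intro x i
    rw [hψ]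
    simp only [hFt.per x _ i]
  have hψb : ∀ x, |ψ x| ≤ A₁ := by
    intro x
    have hfi : Integrable (f t x) := by
      refine var_int (hct x) (C := Cl (d + 1)) fun v => ?_
      have := var_wt (χ := fun _ => (1 : ℝ)) (A := 1) (fun _ => by simp) (hFt.nn x)
        (fun v => hFt.dec (d + 1) x v) v
      simpa using this
    have h2 := norm_integral_le_of_norm_le (f := fun v => χ v * f t x v) (hfi.const_mul A₀)
      (Eventually.of_forall fun v => by
        rw [Real.norm_eq_abs, abs_mul, abs_of_nonneg (hFt.nn x v)]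
        exact mul_le_mul_of_nonneg_right (hχ0.bd v) (hFt.nn x v))
    rw [Real.norm_eq_abs, integral_const_mul] at h2
    rw [hψ]
    refine h2.trans ((mul_le_mul_of_nonneg_left (hM (f t x) (hct x) (hFt.nn x)
      fun N v => hFt.dec N x v) (by linarith)).trans hA1M)
  have hψm : ∀ x y, ‖x - y‖ ≤ ρ → |ψ x - ψ y| ≤ ε₂ := by
    intro x y hxy
    have h1 := var_diff hFt hχ0 (hl1 m (f t) hFt) hρ x y hxy
    rw [hψ]
    refine h1.trans (le_of_eq ?_)
    field_simp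
  have hψc : Continuous ψ := by
    rw [Metric.continuous_iff]
    intro x e he
    obtain ⟨ρ', hρ', hl⟩ := l1_md (d := d) Cl r (ε := e / (2 * A₀)) (by positivity)
    refine ⟨ρ', hρ', fun y hy => ?_⟩
    have h1 := var_diff hFt hχ0 (hl m (f t) hFt) hρ' y x (by rw [dist_eq_norm] at hy; exact hy.le)
    rw [Real.dist_eq, hψ]
    refine h1.trans_lt ?_
    have h2 : A₀ * (e / (2 * A₀)) = e / 2 := by field_simp
    rw [h2]
    linarith
  obtain ⟨ψ', hper', hb', hlip', hclose⟩ := hlip ψ hψper hψb hψm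
  have hψ'c : Continuous ψ' := by
    rw [Metric.continuous_iff]
    intro x e he
    refine ⟨e / (K' + 1), by positivity, fun y hy => ?_⟩
    rw [Real.dist_eq]
    refine (hlip' y x).trans_lt ?_
    rw [dist_eq_norm] at hy
    have h1 : K' * ‖y - x‖ ≤ K' * (e / (K' + 1)) := mul_le_mul_of_nonneg_left hy.le hK'
    refine h1.trans_lt ?_
    rw [← mul_div_assoc, div_lt_iff₀ (by positivity)]
    nlinarith
  have hpm : IsProbabilityMeasure (muD d) := ⟨muD_univ⟩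
  have hmu : ∀ {h : Vec d → ℝ} {B : ℝ}, Continuous h → (∀ x, |h x| ≤ B) → Integrable h (muD d) :=
    fun {h B} hc hb => (integrable_const B).mono' hc.aestronglyMeasurable
      (Eventually.of_forall fun x => by rw [Real.norm_eq_abs]; exact hb x)
  have iψ := hmu hψc hψb
  have iψ' := hmu hψ'c hb'
  have iψψ' : Integrable (fun x => ψ x * ψ' x) (muD d) := hmu (hψc.mul hψ'c) (B := A₁ * A₁) fun x => by
    rw [abs_mul]
    exact mul_le_mul (hψb x) (hb' x) (abs_nonneg _) (by linarith)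
  have iψψ : Integrable (fun x => ψ x ^ 2) (muD d) := hmu (hψc.pow 2) (B := A₁ ^ 2) fun x => by
    rw [abs_pow]
    exact pow_le_pow_left₀ (abs_nonneg _) (hψb x) 2
  have hconst : ∀ c : ℝ, ∫ _x : Vec d, c ∂(muD d) = c := fun c => by
    rw [integral_const, measureReal_def, muD_univ]
    simp
  -- the step `∫ ψ² ≤ ∫ ψ ψ' + A₁ ε₂`
  have hA1p : 0 ≤ A₁ := by linarith
  have b1 : ∫ x, ψ x ^ 2 ∂(muD d) ≤ (∫ x, ψ x * ψ' x ∂(muD d)) + A₁ * ε₂ := by
    rw [← hconst (A₁ * ε₂), ← integral_add iψψ' (integrable_const _)]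
    refine integral_mono iψψ (iψψ'.add (integrable_const _)) fun x => ?_
    show ψ x ^ 2 ≤ ψ x * ψ' x + A₁ * ε₂
    have h1 : ψ x * (ψ x - ψ' x) ≤ A₁ * ε₂ :=
      (le_abs_self _).trans (by rw [abs_mul]; exact mul_le_mul (hψb x) (hclose x) (abs_nonneg _) hA1p)
    nlinarith
  have b2 : |(∫ x, ψ' x ∂(muD d)) - ∫ x, ψ x ∂(muD d)| ≤ ε₂ := by
    rw [← integral_sub iψ' iψ]
    refine (norm_integral_le_of_norm_le (f := fun x => ψ' x - ψ x) (integrable_const ε₂)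
      (Eventually.of_forall fun x => ?_)).trans (le_of_eq (hconst ε₂))
    rw [Real.norm_eq_abs, abs_sub_comm]
    exact hclose x
  have b3 : |∫ x, ψ' x ∂(muD d)| ≤ A₁ :=
    (norm_integral_le_of_norm_le (f := ψ') (integrable_const A₁) (Eventually.of_forall fun x => by
      rw [Real.norm_eq_abs]; exact hb' x)).trans (le_of_eq (hconst A₁))
  have b4 : |∫ x, ψ x ∂(muD d)| ≤ A₁ :=
    (norm_integral_le_of_norm_le (f := ψ) (integrable_const A₁) (Eventually.of_forall fun x => by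
      rw [Real.norm_eq_abs]; exact hψb x)).trans (le_of_eq (hconst A₁))
  -- the transported test functions
  have hTS := tsol_self hf
  have key : ∀ ψ₁ : Vec d → ℝ, Continuous ψ₁ → Per ψ₁ → (∀ x, |ψ₁ x| ≤ A₁) →
      (∀ x y, |ψ₁ x - ψ₁ y| ≤ K' * ‖x - y‖) →
      |(∫ q, χ q.1 * ψ₁ q.2 * f t q.2 q.1 ∂(nu d)) -
        ∫ q, χ q.1 * ψ₁ (q.2 + L • q.1) * f s q.2 q.1 ∂(nu d)| ≤
        ∫ τ in s..t, (K * (∫ x, D δ (f τ x) ∂(muD d)) + ε₄) := by
    intro ψ₁ h1 h2 h3 h4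
    obtain ⟨φ, hφ⟩ : ∃ φ : Vec d × Vec d → ℝ, φ = fun q => χ q.1 * ψ₁ (q.2 + t • q.1) := ⟨_, rfl⟩
    have hφc : Continuous φ := by
      rw [hφ]
      exact (hχc.comp continuous_fst).mul (h1.comp (by fun_prop))
    have hφb : ∀ q, |φ q| ≤ A₁ * A₁ := fun q => by
      rw [hφ, abs_mul]
      exact mul_le_mul (hχ.bd _) (h3 _) (abs_nonneg _) hA1p
    have hφp : ∀ v, Per fun y => φ (v, y) := by
      intro v x i
      rw [hφ]
      show χ v * ψ₁ (x + Pi.single i 1 + t • v) = χ v * ψ₁ (x + t • v)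
      rw [show x + Pi.single i 1 + t • v = x + t • v + Pi.single i 1 by abel, h2]
    have hsh : ∀ τ : ℝ, ∀ q : Vec d × Vec d,
        φ (q.1, q.2 - τ • q.1) = χ q.1 * ψ₁ (q.2 + (t - τ) • q.1) := by
      intro τ q
      rw [hφ]
      show χ q.1 * ψ₁ (q.2 - τ • q.1 + t • q.1) = _
      rw [show q.2 - τ • q.1 + t • q.1 = q.2 + (t - τ) • q.1 by rw [sub_smul]; abel]
    have hftc := hTS.ftc hφc hφb hφp (by linarith : 0 < s) hst htT
    have e1 : pair φ f t = ∫ q, χ q.1 * ψ₁ q.2 * f t q.2 q.1 ∂(nu d) := by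
      unfold pair
      refine integral_congr_ae (Eventually.of_forall fun q => ?_)
      show φ (q.1, q.2 - t • q.1) * f t q.2 q.1 = _
      rw [hsh, sub_self, zero_smul, add_zero]
    have e2 : pair φ f s = ∫ q, χ q.1 * ψ₁ (q.2 + L • q.1) * f s q.2 q.1 ∂(nu d) := by
      unfold pair
      refine integral_congr_ae (Eventually.of_forall fun q => ?_)
      show φ (q.1, q.2 - s • q.1) * f s q.2 q.1 = _
      rw [hsh, show t - s = L by rw [hs]; ring]
    rw [← e1, ← e2, hftc, ← Real.norm_eq_abs]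
    have hsub : uIcc s t ⊆ Ioo 0 T := by
      rw [uIcc_of_le hst]
      exact fun τ hτ => ⟨by linarith [hτ.1], hτ.2.trans_lt htT⟩
    refine intervalIntegral.norm_integral_le_of_norm_le hst (Eventually.of_forall fun τ hτ => ?_) ?_
    · have e3 : pair φ (fun t x => Q (f t x)) τ =
          ∫ q, χ q.1 * ψ₁ (q.2 + (t - τ) • q.1) * Q (f τ q.2) q.1 ∂(nu d) := by
        unfold pair
        refine integral_congr_ae (Eventually.of_forall fun q => ?_)
        show φ (q.1, q.2 - τ • q.1) * Q (f τ q.2) q.1 = _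
        rw [hsh]
      rw [Real.norm_eq_abs, e3]
      exact (hsr δ hδ τ ⟨by linarith [hτ.1], hτ.2.trans ht.2⟩).2 χ ψ₁ hχ h2 h3 h4 (t - τ)
        ⟨by linarith [hτ.2], by linarith [hτ.1, hs]⟩
    · exact ((((HD.cont T f hf δ hδ1).mono hsub).intervalIntegrable).const_mul K).add
        intervalIntegrable_const
  have k1 := key ψ' hψ'c hper' hb' hlip'
  have k2 := key (fun _ => 1) continuous_const (fun _ _ => rfl) (fun _ => by
    rw [abs_one]; exact hA11) (fun x y => by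
    rw [sub_self, abs_zero]; positivity)
  simp only [mul_one] at k2
  have k3 := hmix m (f s) hFs χ hχ ψ' hψ'c hper' hb'
  -- integrals over `nu` and iterated integrals
  have n1 : ∫ q, χ q.1 * ψ' q.2 * f t q.2 q.1 ∂(nu d) = ∫ x, ψ x * ψ' x ∂(muD d) := by
    rw [Pool.Agent.H15.AV.nu_integral]
    · refine integral_congr_ae (Eventually.of_forall fun x => ?_)
      show ∫ v, χ v * ψ' x * f t x v = ψ x * ψ' x
      rw [hψ, ← integral_mul_const]
      refine integral_congr_ae (Eventually.of_forall fun v => ?_)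
      show χ v * ψ' x * f t x v = χ v * f t x v * ψ' x
      ring
    · refine integrable_nu (C := A₁ * A₁ * Cl (d + 1)) ?_ fun q => ?_
      · exact (((hχc.comp continuous_fst).mul (hψ'c.comp continuous_snd)).mul
          (hFt.cont.comp (by fun_prop : Continuous fun q : Vec d × Vec d => (q.2, q.1)))).aestronglyMeasurable
      · exact var_wt (χ := fun v => χ v * ψ' q.2) (fun v => by
          rw [abs_mul]
          exact mul_le_mul (hχ.bd v) (hb' _) (abs_nonneg _) hA1p) (hFt.nn q.2)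
          (fun v => hFt.dec (d + 1) q.2 v) q.1
  have n2 : ∫ q, χ q.1 * f t q.2 q.1 ∂(nu d) = ∫ x, ψ x ∂(muD d) := by
    rw [Pool.Agent.H15.AV.nu_integral]
    · refine integral_congr_ae (Eventually.of_forall fun x => ?_)
      show ∫ v, χ v * f t x v = ψ x
      rw [hψ]
    · refine integrable_nu (C := A₁ * Cl (d + 1)) ?_ fun q => ?_
      · exact ((hχc.comp continuous_fst).mul
          (hFt.cont.comp (by fun_prop : Continuous fun q : Vec d × Vec d => (q.2, q.1)))).aestronglyMeasurable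
      · exact var_wt hχ.bd (hFt.nn q.2) (fun v => hFt.dec (d + 1) q.2 v) q.1
  rw [n1] at k1
  rw [n2] at k2
  -- the value of the time integral
  have hsub : uIcc s t ⊆ Ioo 0 T := by
    rw [uIcc_of_le hst]
    exact fun τ hτ => ⟨by linarith [hτ.1], hτ.2.trans_lt htT⟩
  have iD : IntervalIntegrable (fun τ => ∫ x, D δ (f τ x) ∂(muD d)) volume s t :=
    ((HD.cont T f hf δ hδ1).mono hsub).intervalIntegrable
  have e5 : ∫ τ in s..t, (K * (∫ x, D δ (f τ x) ∂(muD d)) + ε₄) =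
      K * (∫ τ in s..t, (∫ x, D δ (f τ x) ∂(muD d))) + ε₄ * L := by
    rw [intervalIntegral.integral_add (iD.const_mul K) intervalIntegrable_const,
      intervalIntegral.integral_const_mul, intervalIntegral.integral_const, smul_eq_mul,
      show t - s = L by rw [hs]; ring, mul_comm L]
  rw [e5] at k1 k2
  rw [← hs]
  have hVr : Vr χ (f t) = (∫ x, ψ x ^ 2 ∂(muD d)) - (∫ x, ψ x ∂(muD d)) ^ 2 := by
    unfold Vr
    rw [hψ]
  rw [hVr]
  -- names
  generalize hI : K * (∫ τ in s..t, (∫ x, D δ (f τ x) ∂(muD d))) + ε₄ * L = I at k1 k2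
  generalize (∫ τ in s..t, (∫ x, D δ (f τ x) ∂(muD d))) = DD at hI ⊢
  generalize (∫ x, ψ x ^ 2 ∂(muD d)) = P2 at b1 ⊢
  generalize (∫ x, ψ x * ψ' x ∂(muD d)) = PP at b1 k1
  generalize (∫ x, ψ x ∂(muD d)) = P at b2 b4 k2 ⊢
  generalize (∫ x, ψ' x ∂(muD d)) = P' at b2 b3 k3
  generalize (∫ q, χ q.1 * ψ' (q.2 + L • q.1) * f s q.2 q.1 ∂(nu d)) = S1 at k1 k3
  generalize (∫ q, χ q.1 * f s q.2 q.1 ∂(nu d)) = S2 at k2 k3
  have c1 := (abs_le.1 k1).2
  have c3 := (abs_le.1 k3).2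
  have hI0 : 0 ≤ I := (abs_nonneg _).trans k1
  have c4 : S2 * P' - P * P' ≤ A₁ * I := by
    have h1 : |(P - S2) * P'| ≤ I * A₁ := by
      rw [abs_mul]
      exact mul_le_mul k2 b3 (abs_nonneg _) hI0
    have h2 := (abs_le.1 h1).1
    nlinarith
  have c5 : P * P' - P ^ 2 ≤ A₁ * ε₂ := by
    have h1 : |P * (P' - P)| ≤ A₁ * ε₂ := by
      rw [abs_mul]
      exact mul_le_mul b4 b2 (abs_nonneg _) hA1p
    have h2 := (abs_le.1 h1).2
    nlinarith
  have c6 : (1 + A₁) * I = K * (1 + A₁) * DD + ε / 8 := by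
    rw [← hI, ← hAε₄]
    ring
  rw [hAε₂] at b1 c5
  nlinarith

end Pool.Agent.H15.OB
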